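import Pool.Agent.N162.HS.Tr

/-!
Generalizations of the generic point of a smooth hypersurface.
-/

set_option autoImplicit false
set_option linter.overlappingInstances false
set_option linter.unusedSectionVars false

open Polynomial Pool.Agent.Y184.NT Pool.Agent.Y988.NT

namespace Pool.Agent.N162.HS

section

variable {K M : Type} [Field K] [Algebra ℂ K] [Field M] [Algebra ℂ M] {n d : ℕ}

/-- a specialization of the same transcendence degree is an isomorphism -/
theorem spec_inj {ι : Type} {x : ι → K} {x' : ι → M}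
    (hspec : ∀ H : MvPolynomial ι ℂ, MvPolynomial.aeval x' H = 0 → MvPolynomial.aeval x H = 0)
    {s : Fin n → ι} (hs : AlgebraicIndependent ℂ (fun i => x (s i)))
    (halg : ∀ j, IsAlgebraic (Algebra.adjoin ℂ (Set.range fun i => x' (s i))) (x' j))
    {H : MvPolynomial ι ℂ} (hH : MvPolynomial.aeval x H = 0) : MvPolynomial.aeval x' H = 0 := by
  classical
  by_contra hne
  have hA : IsAlgebraic (Algebra.adjoin ℂ (Set.range fun i => x' (s i)))
      (MvPolynomial.aeval x' H) := by
    clear hne hH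
    induction H using MvPolynomial.induction_on with
    | C a =>
      rw [MvPolynomial.aeval_C, IsScalarTower.algebraMap_apply ℂ
        (Algebra.adjoin ℂ (Set.range fun i => x' (s i))) M]
      exact isAlgebraic_algebraMap _
    | add p q hp hq => rw [map_add]; exact hp.add hq
    | mul_X p i hp => rw [map_mul, MvPolynomial.aeval_X]; exact hp.mul (halg i)
  obtain ⟨q, hq0, hq⟩ := hA.exists_nonzero_coeff_and_aeval_eq_zero
    (mem_nonZeroDivisors_of_ne_zero hne)
  have hG : ∀ i, ∃ G : MvPolynomial (Fin n) ℂ,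
      MvPolynomial.aeval (fun i => x' (s i)) G = ((q.coeff i : Algebra.adjoin ℂ
        (Set.range fun i => x' (s i))) : M) := by
    intro i
    have h1 : ∀ b ∈ Algebra.adjoin ℂ (Set.range fun i => x' (s i)), ∃ G : MvPolynomial (Fin n) ℂ,
        MvPolynomial.aeval (fun i => x' (s i)) G = b := by
      intro b hb
      rw [Algebra.adjoin_range_eq_range_aeval] at hb
      exact hb
    exact h1 _ (q.coeff i).2
  choose G hG using hG
  obtain ⟨P, hP⟩ : ∃ P : MvPolynomial ι ℂ, P = ∑ i ∈ Finset.range (q.natDegree + 1),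
    MvPolynomial.rename s (G i) * H ^ i := ⟨_, rfl⟩
  have h1 : MvPolynomial.aeval x' P = 0 := by
    rw [hP, map_sum, ← hq, aeval_eq_sum_range]
    refine Finset.sum_congr rfl fun i _ => ?_
    rw [map_mul, map_pow, MvPolynomial.aeval_rename]
    have h2 : x' ∘ s = fun i => x' (s i) := rfl
    rw [h2, hG, Algebra.smul_def]
    rfl
  have h2 := hspec P h1
  rw [hP, map_sum, Finset.sum_range_succ', Finset.sum_eq_zero, zero_add, pow_zero, mul_one,
    MvPolynomial.aeval_rename] at h2
  · have h3 : G 0 = 0 := by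
      have h4 : Function.Injective (MvPolynomial.aeval (fun i => x (s i)) :
        MvPolynomial (Fin n) ℂ →ₐ[ℂ] K) := hs
      apply h4
      rw [map_zero]
      exact h2
    apply hq0
    apply Subtype.ext
    rw [← hG, h3, map_zero]
    rfl
  · intro i _
    rw [map_mul, map_pow, hH, zero_pow (Nat.succ_ne_zero i), mul_zero]

/-- a smooth form is not zero on a hyperplane which is the complement of affine space -/
theorem not_zero {F : MvPolynomial (Fin (n + 2)) ℂ} (hs : Sm F) (hF : F.IsHomogeneous d)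
    {j0 : Fin (n + 2)} (h : ∀ p : Fin (n + 2) → ℂ, p j0 = 1 → MvPolynomial.eval p F = 0) :
    False := by
  have h1 : F * MvPolynomial.X j0 = 0 := by
    apply MvPolynomial.funext
    intro q
    rw [map_mul, MvPolynomial.eval_X, map_zero]
    by_cases h0 : q j0 = 0
    · rw [h0, mul_zero]
    · have h2 := h (fun l => (q j0)⁻¹ * q l) (inv_mul_cancel₀ h0)
      have h3 := aeval_smul_form (K := ℂ) hF (q j0) (fun l => (q j0)⁻¹ * q l)
      have h4 : (fun l => q j0 * ((q j0)⁻¹ * q l)) = q := by
        funext l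
        rw [← mul_assoc, mul_inv_cancel₀ h0, one_mul]
      rw [h4, MvPolynomial.aeval_eq_eval, MvPolynomial.aeval_eq_eval] at h3
      change MvPolynomial.eval q F = _ * MvPolynomial.eval _ F at h3
      rw [h3, h2, mul_zero, zero_mul]
  have h2 : F = 0 := (mul_eq_zero.1 h1).resolve_right (MvPolynomial.X_ne_zero j0)
  obtain ⟨l, hl⟩ := hs (fun _ => 1) (fun h0 => one_ne_zero (congrFun h0 j0))
  apply hl
  rw [h2, map_zero, map_zero]

/-- the coordinates are algebraic over `n` independent ones -/
theorem alg_over {F : MvPolynomial (Fin (n + 2)) ℂ} (hs : Sm F) (hF : F.IsHomogeneous d)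
    {x' : Fin (n + 2) → M} {j0 : Fin (n + 2)} (hj0 : x' j0 = 1)
    (hx' : MvPolynomial.aeval x' F = 0) {s : Fin n → Fin (n + 2)}
    (hs' : AlgebraicIndependent ℂ (fun i => x' (s i))) (j : Fin (n + 2)) :
    IsAlgebraic (Algebra.adjoin ℂ (Set.range fun i => x' (s i))) (x' j) := by
  classical
  by_contra hj
  have hind := (hs'.option_iff_transcendental (x' j)).2 hj
  obtain ⟨e, he⟩ : ∃ e : Option (Fin n) → Fin (n + 2), e = fun o => o.elim j s := ⟨_, rfl⟩
  have hy : (fun o : Option (Fin n) => o.elim (x' j) fun i => x' (s i)) = fun o => x' (e o) := by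
    funext o
    rw [he]
    cases o <;> rfl
  rw [hy] at hind
  have hinj : Function.Injective e := by
    intro a b hab
    apply hind.injective
    change x' (e a) = x' (e b)
    rw [hab]
  have hj0e : ∀ o, e o ≠ j0 := by
    intro o h
    have h1 := hind.transcendental o
    rw [h, hj0] at h1
    exact h1 isAlgebraic_one
  let e' : Option (Fin n) → {i : Fin (n + 2) // i ≠ j0} := fun o => ⟨e o, hj0e o⟩
  have he'inj : Function.Injective e' := fun a b hab => hinj (congrArg Subtype.val hab)
  have hbij : Function.Bijective e' := by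
    rw [Fintype.bijective_iff_injective_and_card]
    refine ⟨he'inj, ?_⟩
    rw [Fintype.card_option, Fintype.card_fin, Fintype.card_subtype_compl, Fintype.card_fin,
      Fintype.card_subtype_eq]
    rfl
  have hsurj : ∀ i, i ≠ j0 → ∃ o, e o = i := by
    intro i hi
    obtain ⟨o, ho⟩ := hbij.2 ⟨i, hi⟩
    exact ⟨o, congrArg Subtype.val ho⟩
  choose! r hr using hsurj
  obtain ⟨F', hF'⟩ : ∃ F' : MvPolynomial (Option (Fin n)) ℂ, F' = MvPolynomial.aeval
    (fun i => if i = j0 then 1 else MvPolynomial.X (r i)) F := ⟨_, rfl⟩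
  have h1 : MvPolynomial.aeval (fun o => x' (e o)) F' = 0 := by
    rw [hF', MvPolynomial.comp_aeval_apply, ← hx']
    congr 2
    funext i
    by_cases hi : i = j0
    · rw [if_pos hi, map_one, hi, hj0]
    · rw [if_neg hi, MvPolynomial.aeval_X, hr i hi]
  have h2 : F' = 0 := by
    have h4 : Function.Injective (MvPolynomial.aeval (fun o => x' (e o)) :
      MvPolynomial (Option (Fin n)) ℂ →ₐ[ℂ] M) := hind
    apply h4
    rw [map_zero]
    exact h1
  refine not_zero hs hF (j0 := j0) fun p hp => ?_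
  have h3 : MvPolynomial.aeval (fun o => p (e o)) F' = MvPolynomial.aeval p F := by
    rw [hF', MvPolynomial.comp_aeval_apply]
    congr 2
    funext i
    by_cases hi : i = j0
    · rw [if_pos hi, map_one, hi, hp]
    · rw [if_neg hi, MvPolynomial.aeval_X, hr i hi]
  rw [h2, map_zero, MvPolynomial.aeval_eq_eval] at h3
  exact h3.symm

/-- the embedding given by a generalization of the generic point -/
theorem exists_emb {F : MvPolynomial (Fin (n + 2)) ℂ} (hs : Sm F) (hF : F.IsHomogeneous d)
    {x : Fin (n + 2) → K} {j0 : Fin (n + 2)} (hj0 : x j0 = 1)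
    (hgen : IntermediateField.adjoin ℂ (Set.range x) = ⊤) (hK : Algebra.trdeg ℂ K = (n : ℕ))
    {x' : Fin (n + 2) → M} (hj0' : x' j0 = 1) (hx' : MvPolynomial.aeval x' F = 0)
    (hspec : ∀ H : MvPolynomial (Fin (n + 2)) ℂ, MvPolynomial.aeval x' H = 0 →
      MvPolynomial.aeval x H = 0) :
    ∃ φ : K →ₐ[ℂ] M, ∀ j, φ (x j) = x' j := by
  classical
  have hgen' : IntermediateField.adjoin ℂ (Set.range fun j => x j / x j0) = ⊤ := by
    simp only [hj0, div_one]
    exact hgen
  obtain ⟨s, hs1⟩ := exists_s hK hgen'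
  simp only [hj0, div_one] at hs1
  have hs2 : AlgebraicIndependent ℂ (fun i => x' (s i)) := by
    rw [algebraicIndependent_iff]
    intro p hp
    have h1 := hspec (MvPolynomial.rename s p) (by
      rw [MvPolynomial.aeval_rename]
      exact hp)
    rw [MvPolynomial.aeval_rename] at h1
    exact algebraicIndependent_iff.1 hs1 p h1
  have hker : ∀ H : MvPolynomial (Fin (n + 2)) ℂ, MvPolynomial.aeval x H = 0 ↔
      MvPolynomial.aeval x' H = 0 := fun H =>
    ⟨fun h => spec_inj hspec hs1 (alg_over hs hF hj0' hx' hs2) h, hspec H⟩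
  let A := (MvPolynomial.aeval x : MvPolynomial (Fin (n + 2)) ℂ →ₐ[ℂ] K).range
  have hA : IsFractionRing A K := by
    apply IsFractionRing.of_field
    intro z
    have hz : z ∈ IntermediateField.adjoin ℂ (Set.range x) := by
      rw [hgen]
      trivial
    obtain ⟨r, t, rfl⟩ := (IntermediateField.mem_adjoin_range_iff ℂ x z).1 hz
    exact ⟨⟨_, r, rfl⟩, ⟨_, t, rfl⟩, rfl⟩
  let φx : MvPolynomial (Fin (n + 2)) ℂ →ₐ[ℂ] K := MvPolynomial.aeval x
  let q0 : (MvPolynomial (Fin (n + 2)) ℂ ⧸ RingHom.ker φx) ≃ₐ[ℂ] φx.range :=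
    Ideal.quotientKerEquivRange φx
  let l0 : (MvPolynomial (Fin (n + 2)) ℂ ⧸ RingHom.ker φx) →ₐ[ℂ] M :=
    Ideal.Quotient.liftₐ (RingHom.ker φx) (MvPolynomial.aeval x') (fun H hH => (hker H).1 hH)
  let e0 : A →ₐ[ℂ] M := l0.comp q0.symm.toAlgHom
  have he0 : ∀ H, e0 ⟨MvPolynomial.aeval x H, H, rfl⟩ = MvPolynomial.aeval x' H := by
    intro H
    have h1 : q0.symm ⟨MvPolynomial.aeval x H, H, rfl⟩ = Ideal.Quotient.mk _ H := by
      rw [AlgEquiv.symm_apply_eq]
      rfl
    change l0 (q0.symm ⟨MvPolynomial.aeval x H, H, rfl⟩) = _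
    rw [h1]
    rfl
  have hinj : Function.Injective e0 := by
    rw [injective_iff_map_eq_zero]
    rintro ⟨_, P, rfl⟩ hP
    have h1 : MvPolynomial.aeval x' P = 0 := by
      rw [← he0]
      exact hP
    exact Subtype.ext ((hker P).2 h1)
  refine ⟨IsFractionRing.liftAlgHom (K := K) hinj, fun j => ?_⟩
  have h1 : x j = algebraMap A K ⟨MvPolynomial.aeval x (MvPolynomial.X j), _, rfl⟩ := by
    change _ = MvPolynomial.aeval x (MvPolynomial.X j)
    rw [MvPolynomial.aeval_X]
  rw [h1]
  have h2 : IsFractionRing.liftAlgHom (K := K) hinj (algebraMap A K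
      ⟨MvPolynomial.aeval x (MvPolynomial.X j), MvPolynomial.X j, rfl⟩) =
      e0 ⟨MvPolynomial.aeval x (MvPolynomial.X j), MvPolynomial.X j, rfl⟩ :=
    IsFractionRing.lift_algebraMap (K := K) (g := (e0 : A →+* M)) hinj _
  rw [h2, he0, MvPolynomial.aeval_X]

end

end Pool.Agent.N162.HS
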