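import Mathlib

/-!
Partial fractions: a rational function of small degree with simple poles.
-/

set_option autoImplicit false
set_option linter.unusedSectionVars false

open Polynomial

namespace Pool.Agent.N162.HS

section

variable {Ω ι : Type} [Field Ω] [DecidableEq ι]

/-- the numerator of `∑ y k / (T - t k)` -/
noncomputable def num (S : Finset ι) (t y : ι → Ω) : Polynomial Ω :=
  ∑ k ∈ S, C (y k) * ∏ l ∈ S.erase k, (X - C (t l))

theorem num_eval (S : Finset ι) (t y : ι → Ω) {k : ι} (hk : k ∈ S) :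
    (num S t y).eval (t k) = y k * ∏ l ∈ S.erase k, (t k - t l) := by
  unfold num
  rw [eval_finset_sum, Finset.sum_eq_single k]
  · rw [eval_mul, eval_C, eval_prod]
    simp
  · intro l _ hl
    rw [eval_mul, eval_prod]
    refine mul_eq_zero_of_right _ (Finset.prod_eq_zero (i := k) ?_ (by simp))
    exact Finset.mem_erase.2 ⟨hl.symm, hk⟩
  · intro h
    exact absurd hk h

theorem num_natDegree (S : Finset ι) (t y : ι → Ω) (hS : S.Nonempty) :
    (num S t y).natDegree + 1 ≤ S.card := by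
  have h1 : 1 ≤ S.card := hS.card_pos
  have h2 : (num S t y).natDegree ≤ S.card - 1 := by
    unfold num
    refine natDegree_sum_le_of_forall_le _ _ fun k hk => ?_
    refine natDegree_mul_le.trans ?_
    rw [natDegree_C, zero_add, natDegree_prod_of_monic _ _ fun l _ => monic_X_sub_C _]
    simp only [natDegree_X_sub_C, Finset.sum_const, smul_eq_mul, mul_one]
    rw [Finset.card_erase_of_mem hk]
  omega

/-- the moments give the degree -/
theorem num_drop (S : Finset ι) (t y : ι → Ω) {m : ℕ} (h : ∀ j ≤ m, ∑ k ∈ S, y k * t k ^ j = 0)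
    (h0 : num S t y ≠ 0) : (num S t y).natDegree + m + 2 ≤ S.card := by
  have hS : S.Nonempty := by
    rw [Finset.nonempty_iff_ne_empty]
    rintro rfl
    exact h0 (by simp [num])
  have hkey : X ^ (m + 1) * num S t y = num S t (fun k => y k * t k ^ (m + 1)) := by
    unfold num
    rw [Finset.mul_sum]
    have h1 : ∀ k ∈ S, X ^ (m + 1) * (C (y k) * ∏ l ∈ S.erase k, (X - C (t l))) =
        (∏ l ∈ S, (X - C (t l))) * (∑ i ∈ Finset.range (m + 1),
          X ^ i * C (y k * t k ^ (m - i))) +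
        C (y k * t k ^ (m + 1)) * ∏ l ∈ S.erase k, (X - C (t l)) := by
      intro k hk
      have h2 := geom_sum₂_mul (X : Polynomial Ω) (C (t k)) (m + 1)
      rw [Nat.add_sub_cancel] at h2
      have h3 : ∑ i ∈ Finset.range (m + 1), X ^ i * C (y k * t k ^ (m - i)) =
          C (y k) * ∑ i ∈ Finset.range (m + 1), X ^ i * C (t k) ^ (m - i) := by
        rw [Finset.mul_sum]
        refine Finset.sum_congr rfl fun i _ => ?_
        rw [C_mul, C_pow]
        ring
      have h4 : ∑ i ∈ Finset.range (m + 1), (X : Polynomial Ω) ^ i * C (t k) ^ (m - i) =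
          ∑ i ∈ Finset.range (m + 1), X ^ i * C (t k) ^ (m + 1 - 1 - i) := by
        rfl
      rw [h3, h4, ← Finset.mul_prod_erase S _ hk, C_mul, C_pow]
      have h5 : ∑ i ∈ Finset.range (m + 1), (X : Polynomial Ω) ^ i * C (t k) ^ (m + 1 - 1 - i) =
          ∑ i ∈ Finset.range (m + 1), X ^ i * C (t k) ^ (m - i) := rfl
      rw [h5]
      linear_combination (-(C (y k) * ∏ l ∈ S.erase k, (X - C (t l)))) * h2
    rw [Finset.sum_congr rfl h1, Finset.sum_add_distrib, ← Finset.mul_sum, Finset.sum_comm]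
    have h2 : ∀ i ∈ Finset.range (m + 1), ∑ k ∈ S, X ^ i * C (y k * t k ^ (m - i)) = 0 := by
      intro i hi
      rw [← Finset.mul_sum, ← map_sum, h (m - i) (Nat.sub_le _ _), C_0, mul_zero]
    rw [Finset.sum_eq_zero h2, mul_zero, zero_add]
  have h1 := num_natDegree S t (fun k => y k * t k ^ (m + 1)) hS
  rw [← hkey, natDegree_mul (pow_ne_zero _ X_ne_zero) h0, natDegree_X_pow] at h1
  omega

/-- **Partial fractions.** -/
theorem frac [CharZero Ω] {R J : Polynomial Ω} {m n : ℕ} (hR : R ≠ 0) (hRd : R.natDegree ≤ m + n + 2)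
    (hJ : J.natDegree ≤ n) (S : Finset ι) (t μ : ι → Ω) (c : ι → ℤ)
    (ht : ∀ k ∈ S, ∀ l ∈ S, t k = t l → k = l)
    (hrel : ∀ j ≤ m, ∑ k ∈ S, (c k : Ω) * μ k * t k ^ j = 0) (T : Ω → Prop)
    (hS : ∀ k ∈ S, T (t k))
    (loc : ∀ τ, T τ → ∃ (ν : Ω) (e : ℕ) (R1 J1 : Polynomial Ω), ν ≠ 0 ∧ R = (X - C τ) ^ (e + 1) * R1 ∧
      R1.eval τ ≠ 0 ∧ J = (X - C τ) ^ e * J1 ∧ J1.eval τ = (e + 1 : ℕ) * R1.eval τ * ν ∧
      ∀ k ∈ S, t k = τ → μ k = ν) {m0 : ℤ} (hm0 : m0 ≠ 0)
    (hcard : n < (S.filter fun k => c k = m0).card) :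
    ∀ τ, T τ → ∃ k ∈ S, t k = τ ∧ c k = m0 * R.rootMultiplicity τ := by
  classical
  obtain ⟨y, hy⟩ : ∃ y : ι → Ω, y = fun k => (c k : Ω) * μ k := ⟨_, rfl⟩
  obtain ⟨N, hN⟩ : ∃ N, N = num S t y := ⟨_, rfl⟩
  obtain ⟨H, hH⟩ : ∃ H : Polynomial Ω, H = ∏ k ∈ S, (X - C (t k)) := ⟨_, rfl⟩
  have hH0 : H ≠ 0 := by
    rw [hH]
    exact Finset.prod_ne_zero_iff.2 fun k _ => X_sub_C_ne_zero _
  have hHd : H.natDegree = S.card := by
    rw [hH, natDegree_prod_of_monic _ _ fun l _ => monic_X_sub_C _]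
    simp
  have hprod : ∀ k ∈ S, ∏ l ∈ S.erase k, (t k - t l) ≠ 0 := by
    intro k hk
    rw [Finset.prod_ne_zero_iff]
    intro l hl
    rw [sub_ne_zero]
    intro h
    exact (Finset.mem_erase.1 hl).1 (ht k hk l (Finset.mem_erase.1 hl).2 h).symm
  have hHR : H ∣ R := by
    rw [hH]
    refine Finset.prod_dvd_of_coprime ?_ fun k hk => ?_
    · intro k hk l hl hkl
      refine pairwise_coprime_X_sub_C (s := fun i : S => t i)
        (fun a b hab => Subtype.ext (ht a a.2 b b.2 hab))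
        (i := ⟨k, hk⟩) (j := ⟨l, hl⟩) ?_
      intro h
      exact hkl (congrArg Subtype.val h)
    · obtain ⟨ν, e, R1, J1, -, h1, -⟩ := loc _ (hS k hk)
      rw [h1, pow_succ, mul_assoc, mul_left_comm]
      exact Dvd.intro _ rfl
  obtain ⟨R2, hR2⟩ := hHR
  have hR20 : R2 ≠ 0 := by
    rintro rfl
    rw [mul_zero] at hR2
    exact hR hR2
  obtain ⟨Q, hQ⟩ : ∃ Q, Q = N * R2 := ⟨_, rfl⟩
  have hQd : Q.natDegree ≤ n := by
    by_cases hN0 : N = 0
    · rw [hQ, hN0, zero_mul, natDegree_zero]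
      exact Nat.zero_le _
    · have h1 := num_drop S t y (m := m) (by rw [hy]; exact hrel) (by rw [← hN]; exact hN0)
      rw [← hN] at h1
      have h2 : R.natDegree = S.card + R2.natDegree := by
        rw [hR2, natDegree_mul hH0 hR20, hHd]
      rw [hQ, natDegree_mul hN0 hR20]
      omega
  have hQH : Q * H = N * R := by
    rw [hQ, hR2]
    ring
  -- the values
  have hval : ∀ k ∈ S, Q.eval (t k) = (c k : Ω) * J.eval (t k) := by
    intro k hk
    obtain ⟨ν, e, R1, J1, hν, h1, h2, h3, h4, h5⟩ := loc _ (hS k hk)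
    have h6 := h5 k hk rfl
    have h7 : Q * ∏ l ∈ S.erase k, (X - C (t l)) = N * ((X - C (t k)) ^ e * R1) := by
      apply mul_left_cancel₀ (X_sub_C_ne_zero (t k))
      have h8 : (X - C (t k)) * ∏ l ∈ S.erase k, (X - C (t l)) = H := by
        rw [hH, ← Finset.mul_prod_erase S (fun l => X - C (t l)) hk]
      linear_combination hQH + N * h1 + Q * h8
    have h8 := congrArg (eval (t k)) h7
    have hyk : y k = (c k : Ω) * ν := by rw [hy, ← h6]
    rw [eval_mul, eval_prod, eval_mul, hN, num_eval S t y hk, hyk, eval_mul] at h8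
    simp only [eval_sub, eval_X, eval_C] at h8
    have h9 := congrArg (eval (t k)) h3
    rw [eval_mul, h4] at h9
    apply mul_right_cancel₀ (hprod k hk)
    rw [h8, h9]
    rcases Nat.eq_zero_or_pos e with rfl | he
    · simp only [pow_zero, eval_one]
      push_cast
      ring
    · have h10 : eval (t k) ((X - C (t k)) ^ e) = 0 := by
        rw [eval_pow, eval_sub, eval_X, eval_C, sub_self, zero_pow (by omega)]
      rw [h10]
      ring
  -- equality
  have hQJ : Q = C (m0 : Ω) * J := by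
    rw [← sub_eq_zero]
    refine eq_zero_of_natDegree_lt_card_of_eval_eq_zero' _
      ((S.filter fun k => c k = m0).image t) ?_ ?_
    · intro τ hτ
      obtain ⟨k, hk, rfl⟩ := Finset.mem_image.1 hτ
      obtain ⟨h1, h2⟩ := Finset.mem_filter.1 hk
      rw [eval_sub, eval_mul, eval_C, hval k h1, h2, sub_self]
    · rw [Finset.card_image_of_injOn]
      · refine lt_of_le_of_lt ?_ hcard
        refine (natDegree_sub_le _ _).trans (max_le hQd ?_)
        refine natDegree_mul_le.trans ?_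
        rw [natDegree_C, zero_add]
        exact hJ
      · intro k hk l hl hkl
        exact ht k (Finset.mem_filter.1 (Finset.mem_coe.1 hk)).1 l
          (Finset.mem_filter.1 (Finset.mem_coe.1 hl)).1 hkl
  intro τ hτ
  obtain ⟨ν, e, R1, J1, hν, h1, h2, h3, h4, h5⟩ := loc τ hτ
  have hmul : R.rootMultiplicity τ = e + 1 := by
    rw [h1, rootMultiplicity_mul (by rw [← h1]; exact hR), rootMultiplicity_X_sub_C_pow,
      rootMultiplicity_eq_zero (by exact h2), add_zero]
  have h6 : C (m0 : Ω) * J1 * H = N * ((X - C τ) * R1) := by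
    apply mul_left_cancel₀ (pow_ne_zero e (X_sub_C_ne_zero τ))
    have h7 := hQH
    rw [hQJ, h3, h1] at h7
    linear_combination h7
  have h7 := congrArg (eval τ) h6
  rw [eval_mul, eval_mul, eval_C, h4, eval_mul, eval_mul, eval_sub, eval_X, eval_C, sub_self,
    zero_mul, mul_zero] at h7
  have h8 : H.eval τ = 0 := by
    rcases mul_eq_zero.1 h7 with h8 | h8
    · exfalso
      have he : ((e + 1 : ℕ) : Ω) ≠ 0 := Nat.cast_ne_zero.2 (Nat.succ_ne_zero e)
      have hm : (m0 : Ω) ≠ 0 := Int.cast_ne_zero.2 hm0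
      exact mul_ne_zero hm (mul_ne_zero (mul_ne_zero he h2) hν) h8
    · exact h8
  rw [hH, eval_prod, Finset.prod_eq_zero_iff] at h8
  obtain ⟨k, hk, h9⟩ := h8
  rw [eval_sub, eval_X, eval_C, sub_eq_zero] at h9
  refine ⟨k, hk, h9.symm, ?_⟩
  subst h9
  have h10 := h5 k hk rfl
  have h11 : C (m0 : Ω) * J1 * ∏ l ∈ S.erase k, (X - C (t l)) = N * R1 := by
    apply mul_left_cancel₀ (X_sub_C_ne_zero (t k))
    have h8 : (X - C (t k)) * ∏ l ∈ S.erase k, (X - C (t l)) = H := by
      rw [hH, ← Finset.mul_prod_erase S (fun l => X - C (t l)) hk]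
    linear_combination h6 + (C (m0 : Ω) * J1) * h8
  have h12 := congrArg (eval (t k)) h11
  have hyk : y k = (c k : Ω) * ν := by rw [hy, ← h10]
  rw [eval_mul, eval_mul, eval_C, h4, eval_prod, eval_mul, hN, num_eval S t y hk, hyk] at h12
  simp only [eval_sub, eval_X, eval_C] at h12
  have h13 : ((c k : ℤ) : Ω) = ((m0 * (e + 1 : ℕ) : ℤ) : Ω) := by
    apply mul_right_cancel₀ (mul_ne_zero (mul_ne_zero h2 hν) (hprod k hk))
    push_cast at h12 ⊢
    linear_combination -h12
  rw [hmul]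
  exact_mod_cast h13

end

end Pool.Agent.N162.HS
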