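import Pool.Agent.N162.HS.Tr
import Pool.Agent.N162.HS.Frac

/-!
Cycles with null trace and few points on a smooth hypersurface are multiples of line sections.
-/

set_option autoImplicit false
set_option linter.overlappingInstances false
set_option linter.unusedSectionVars false

open FF Polynomial Pool.Agent.Y184.NT Pool.Agent.W602.GT Pool.Agent.Y988.NT Pool.Agent.N162.BC

namespace Pool.Agent.N162.HS

section

variable {K Ω : Type} [Field K] [Algebra ℂ K] [Field Ω] [Algebra ℂ Ω] {n d m : ℕ}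

theorem hom_ext {x : Fin (n + 2) → K} (hgen : IntermediateField.adjoin ℂ (Set.range x) = ⊤)
    {σ τ : K →ₐ[ℂ] Ω} (h : ∀ j, σ (x j) = τ (x j)) : σ = τ := by
  apply AlgHom.ext
  intro a
  have ha : a ∈ IntermediateField.adjoin ℂ (Set.range x) := by
    rw [hgen]
    trivial
  induction ha using IntermediateField.adjoin_induction with
  | mem e he =>
    obtain ⟨l, rfl⟩ := he
    exact h l
  | algebraMap c => rw [AlgHom.commutes, AlgHom.commutes]
  | add a b _ _ ha hb => rw [map_add, map_add, ha, hb]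
  | inv a _ ha => rw [map_inv₀, map_inv₀, ha]
  | mul a b _ _ ha hb => rw [map_mul, map_mul, ha, hb]

/-- The local structure at a point of the line. -/
theorem local_data {F : MvPolynomial (Fin (n + 2)) ℂ} (hF : F.IsHomogeneous d) (hd : 2 ≤ d)
    {x c : Fin (n + 2) → K} (hx : MvPolynomial.aeval x F = 0)
    (hc : ∑ l, MvPolynomial.aeval x (MvPolynomial.pderiv l F) * c l = 1) {j0 : Fin (n + 2)}
    (hj0 : x j0 = 1) (hgen : IntermediateField.adjoin ℂ (Set.range x) = ⊤)
    (hK : Algebra.trdeg ℂ K = (n : ℕ)) (hΩ : Algebra.trdeg ℂ Ω = (n : ℕ)) {y : Fin n → Ω}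
    (hy : IsTranscendenceBasis ℂ y) {D : Fin n → Derivation ℂ Ω Ω}
    (hD : ∀ i j, D i (y j) = if i = j then 1 else 0) {a b : Fin (n + 2) → Ω}
    (hR : restr F a b ≠ 0) {σ : K →ₐ[ℂ] Ω} {τ : Ω} (hσ : ∀ j, σ (x j) = a j + τ * b j) :
    ∃ (e : ℕ) (R1 J1 : Polynomial Ω), restr F a b = (X - C τ) ^ (e + 1) * R1 ∧ R1.eval τ ≠ 0 ∧
      jb D a b = (X - C τ) ^ e * J1 ∧
      J1.eval τ = (e + 1 : ℕ) * R1.eval τ * (rows (fun j => σ (c j)) (fun j => σ (x j)) D).det := by
  have hev : ∀ G : MvPolynomial (Fin (n + 2)) ℂ,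
      MvPolynomial.aeval (fun j => σ (x j)) G = σ (MvPolynomial.aeval x G) := by
    intro G
    exact (MvPolynomial.comp_aeval_apply (φ := σ) x G).symm
  have hroot : (restr F a b).eval τ = 0 := by
    rw [restr_eval]
    have h1 := hev F
    rw [hx, map_zero] at h1
    rw [← h1]
    congr 2
    funext j
    rw [hσ]
  have hpos : 0 < (restr F a b).rootMultiplicity τ := (rootMultiplicity_pos hR).2 hroot
  obtain ⟨e, he⟩ : ∃ e, (restr F a b).rootMultiplicity τ = e + 1 :=
    ⟨_, (Nat.succ_pred_eq_of_pos hpos).symm⟩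
  obtain ⟨R1, hR1, hR1d⟩ := exists_eq_pow_rootMultiplicity_mul_and_not_dvd (restr F a b) hR τ
  rw [he] at hR1
  have hR1e : R1.eval τ ≠ 0 := by
    intro h
    exact hR1d (dvd_iff_isRoot.2 h)
  have hcomp : ∀ p : Polynomial Ω, (p.comp (X + C τ)).comp (X - C τ) = p := by
    intro p
    rw [comp_assoc, add_comp, X_comp, C_comp, sub_add_cancel, comp_X]
  have h1 : restr F (fun j => σ (x j)) b = X ^ (e + 1) * R1.comp (X + C τ) := by
    have h2 := restr_comp F a b τ
    have h3 : (fun j => a j + τ * b j) = fun j => σ (x j) := by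
      funext j
      rw [hσ]
    rw [h3, hR1, mul_comp, pow_comp, sub_comp, X_comp, C_comp, add_sub_cancel_right] at h2
    exact h2.symm
  obtain ⟨J1, hJ1, hJ1e⟩ := residue hF D (fun j => σ (x j)) b (fun j => σ (c j)) (by
    rw [← map_one σ, ← hc, map_sum]
    refine Finset.sum_congr rfl fun l _ => ?_
    rw [map_mul, hev]) h1
  refine ⟨e, R1, J1.comp (X - C τ), hR1, hR1e, ?_, ?_⟩
  · have h2 := jb_comp D a b τ
    have h3 : (fun j => a j + τ * b j) = fun j => σ (x j) := by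
      funext j
      rw [hσ]
    rw [h3, hJ1] at h2
    have h4 := congrArg (fun p : Polynomial Ω => p.comp (X - C τ)) h2
    simp only [hcomp] at h4
    rw [h4, mul_comp, pow_comp, X_comp]
  · rw [eval_comp, eval_sub, eval_X, eval_C, sub_self, hJ1e, eval_comp, eval_add, eval_X, eval_C,
      zero_add]

/-- A cycle with null trace has at least `d - n` points. -/
theorem many_points {F : MvPolynomial (Fin (n + 2)) ℂ} (hs : Sm F)
    (hF : F.IsHomogeneous d) (hd : n + 2 ≤ d) {x : Fin (n + 2) → K}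
    (hx : MvPolynomial.aeval x F = 0) {j0 : Fin (n + 2)} (hj0 : x j0 = 1)
    (hgen : IntermediateField.adjoin ℂ (Set.range x) = ⊤)
    (hK : Algebra.trdeg ℂ K = (n : ℕ)) (hΩ : Algebra.trdeg ℂ Ω = (n : ℕ))
    {f : (K →ₐ[ℂ] Ω) →₀ ℤ} (hf : NullTrace n f) (hf0 : f ≠ 0) : d ≤ f.support.card + n := by
  classical
  have hcΩ : CharZero Ω := charZero_of_injective_algebraMap (algebraMap ℂ Ω).injective
  obtain ⟨m, hm⟩ : ∃ m, m + n + 2 = d := ⟨d - (n + 2), by omega⟩
  obtain ⟨c, hc⟩ := Pool.Agent.Y184.NT.exists_c hs (x := x) (j0 := j0) (by rw [hj0]; exact one_ne_zero)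
  obtain ⟨y, hy⟩ := exists_tb (k := ℂ) (L := Ω) hΩ
  choose D hD using fun i : Fin n => Pool.Agent.W602.GT.exists_der y hy
    fun j => if i = j then (1 : Ω) else 0
  have hrel := relations (Ω := Ω) hs hF hm hx hc hK hf D
  have hμ : ∀ σ : K →ₐ[ℂ] Ω, (rows (fun j => σ (c j)) (fun j => σ (x j)) D).det ≠ 0 := fun σ =>
    rows_ne hF (by omega) hx hc hj0 hgen hK hΩ hy hD σ
  have hx0 : ∀ σ : K →ₐ[ℂ] Ω, σ (x j0) = 1 := fun σ => by rw [hj0, map_one]
  have hLI : ∀ σ τ : K →ₐ[ℂ] Ω, σ ≠ τ →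
      LinearIndependent Ω ![fun j => σ (x j), fun j => τ (x j)] := by
    intro σ τ hστ
    rw [LinearIndependent.pair_iff]
    intro s t hst
    have h1 := congrFun hst j0
    simp only [Pi.add_apply, Pi.smul_apply, smul_eq_mul, Pi.zero_apply, hx0, mul_one] at h1
    have h2 : s = 0 := by
      by_contra hs0
      apply hστ
      refine hom_ext hgen fun j => ?_
      have h3 := congrFun hst j
      simp only [Pi.add_apply, Pi.smul_apply, smul_eq_mul, Pi.zero_apply] at h3
      apply mul_left_cancel₀ hs0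
      have h4 : t = -s := by linear_combination h1
      rw [h4] at h3
      linear_combination h3
    refine ⟨h2, ?_⟩
    rw [h2, zero_add] at h1
    exact h1
  have h1 := Pool.Agent.Y153.NT.claim1 m f.support (fun σ j => σ (x j))
    (fun σ => (f σ : Ω) * (rows (fun j => σ (c j)) (fun j => σ (x j)) D).det)
    (Finsupp.support_nonempty_iff.2 hf0)
    (fun σ hσ => mul_ne_zero (Int.cast_ne_zero.2 (Finsupp.mem_support_iff.1 hσ)) (hμ σ))
    (fun σ _ h0 => by
      have h1 := congrFun h0 j0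
      simp only [hx0, Pi.zero_apply] at h1
      exact one_ne_zero h1)
    (fun σ _ τ _ h => hLI σ τ h) hrel
  omega

/-- **Cycles with null trace and few points are multiples of line sections.** -/
theorem line_section (hn : 1 ≤ n) {F : MvPolynomial (Fin (n + 2)) ℂ} (hs : Sm F)
    (hF : F.IsHomogeneous d) {x : Fin (n + 2) → K} (hx : MvPolynomial.aeval x F = 0)
    {j0 : Fin (n + 2)} (hj0 : x j0 = 1)
    (hgen : IntermediateField.adjoin ℂ (Set.range x) = ⊤)
    (hK : Algebra.trdeg ℂ K = (n : ℕ)) (hΩ : Algebra.trdeg ℂ Ω = (n : ℕ))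
    {f : (K →ₐ[ℂ] Ω) →₀ ℤ} (hf : NullTrace n f) (hcard : f.support.card + 2 * n + 3 ≤ 2 * d)
    {m0 : ℤ} (hm0 : m0 ≠ 0) (hn0 : n < (f.support.filter fun σ => f σ = m0).card) :
    ∃ a b : Fin (n + 2) → Ω, a j0 = 1 ∧ b j0 = 0 ∧ b ≠ 0 ∧ restr F a b ≠ 0 ∧
      (∀ σ : K →ₐ[ℂ] Ω, f σ ≠ 0 → ∃ τ, ∀ j, σ (x j) = a j + τ * b j) ∧
      ∀ (σ : K →ₐ[ℂ] Ω) (τ : Ω), (∀ j, σ (x j) = a j + τ * b j) →
        f σ = m0 * (restr F a b).rootMultiplicity τ := by
  classical
  have hcΩ : CharZero Ω := charZero_of_injective_algebraMap (algebraMap ℂ Ω).injective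
  have hS0 : (f.support.filter fun σ => f σ = m0).card ≤ f.support.card :=
    Finset.card_filter_le _ _
  obtain ⟨m, hm⟩ : ∃ m, m + n + 2 = d := ⟨d - (n + 2), by omega⟩
  obtain ⟨c, hc⟩ := Pool.Agent.Y184.NT.exists_c hs (x := x) (j0 := j0) (by rw [hj0]; exact one_ne_zero)
  obtain ⟨y, hy⟩ := exists_tb (k := ℂ) (L := Ω) hΩ
  choose D hD using fun i : Fin n => Pool.Agent.W602.GT.exists_der y hy
    fun j => if i = j then (1 : Ω) else 0
  have hrel := relations (Ω := Ω) hs hF hm hx hc hK hf D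
  have hμ : ∀ σ : K →ₐ[ℂ] Ω, (rows (fun j => σ (c j)) (fun j => σ (x j)) D).det ≠ 0 := fun σ =>
    rows_ne hF (by omega) hx hc hj0 hgen hK hΩ hy hD σ
  have hx0 : ∀ σ : K →ₐ[ℂ] Ω, σ (x j0) = 1 := fun σ => by rw [hj0, map_one]
  have hLI : ∀ σ τ : K →ₐ[ℂ] Ω, σ ≠ τ →
      LinearIndependent Ω ![fun j => σ (x j), fun j => τ (x j)] := by
    intro σ τ hστ
    rw [LinearIndependent.pair_iff]
    intro s t hst
    have h1 := congrFun hst j0
    simp only [Pi.add_apply, Pi.smul_apply, smul_eq_mul, Pi.zero_apply, hx0, mul_one] at h1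
    have h2 : s = 0 := by
      by_contra hs0
      apply hστ
      refine hom_ext hgen fun j => ?_
      have h3 := congrFun hst j
      simp only [Pi.add_apply, Pi.smul_apply, smul_eq_mul, Pi.zero_apply] at h3
      apply mul_left_cancel₀ hs0
      have h4 : t = -s := by linear_combination h1
      rw [h4] at h3
      linear_combination h3
    refine ⟨h2, ?_⟩
    rw [h2, zero_add] at h1
    exact h1
  have hSne : f.support.Nonempty := by
    rw [← Finset.card_pos]
    omega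
  obtain ⟨hcb1, hcb2⟩ := Pool.Agent.Y153.NT.stCB Ω (n + 2) (K →ₐ[ℂ] Ω) m f.support
    (fun σ j => σ (x j))
    (fun σ => (f σ : Ω) * (rows (fun j => σ (c j)) (fun j => σ (x j)) D).det) hSne
    (fun σ hσ => mul_ne_zero (Int.cast_ne_zero.2 (Finsupp.mem_support_iff.1 hσ)) (hμ σ))
    (fun σ _ h0 => by
      have h1 := congrFun h0 j0
      simp only [hx0, Pi.zero_apply] at h1
      exact one_ne_zero h1)
    (fun σ _ τ _ h => hLI σ τ h) hrel (by omega)
  obtain ⟨σ0, hσ0, σ1, hσ1, hσ01⟩ := Finset.one_lt_card.mp (show 1 < f.support.card by omega)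
  obtain ⟨a, ha⟩ : ∃ a : Fin (n + 2) → Ω, a = fun j => σ0 (x j) := ⟨_, rfl⟩
  obtain ⟨b, hb⟩ : ∃ b : Fin (n + 2) → Ω, b = fun j => σ1 (x j) - σ0 (x j) := ⟨_, rfl⟩
  have haj : a j0 = 1 := by rw [ha]; exact hx0 σ0
  have hbj : b j0 = 0 := by
    rw [hb]
    change σ1 (x j0) - σ0 (x j0) = 0
    rw [hx0, hx0, sub_self]
  have hb0 : b ≠ 0 := by
    intro h0
    apply hσ01
    refine hom_ext hgen fun j => ?_
    have h1 := congrFun h0 j
    rw [hb] at h1
    exact (sub_eq_zero.1 h1).symm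
  obtain ⟨j1, hj1⟩ : ∃ j, b j ≠ 0 := by
    by_contra h
    push Not at h
    exact hb0 (funext h)
  have hline : ∀ σ : K →ₐ[ℂ] Ω, f σ ≠ 0 → ∃ τ, ∀ j, σ (x j) = a j + τ * b j := by
    intro σ hσ
    have h1 := hcb2 σ0 hσ0 σ1 hσ1 hσ01 σ (Finsupp.mem_support_iff.2 hσ)
    obtain ⟨α, β, hαβ⟩ := Submodule.mem_span_pair.1 h1
    have h2 : ∀ j, α * σ0 (x j) + β * σ1 (x j) = σ (x j) := fun j => congrFun hαβ j
    have h3 := h2 j0
    rw [hx0, hx0, hx0, mul_one, mul_one] at h3
    refine ⟨β, fun j => ?_⟩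
    rw [← h2 j, ha, hb]
    change _ = σ0 (x j) + β * (σ1 (x j) - σ0 (x j))
    linear_combination (σ0 (x j)) * h3
  have habI : LinearIndependent Ω ![a, b] := by
    rw [LinearIndependent.pair_iff]
    intro s t hst
    have h1 := congrFun hst j0
    simp only [Pi.add_apply, Pi.smul_apply, smul_eq_mul, Pi.zero_apply, haj, hbj, mul_one,
      mul_zero, add_zero] at h1
    have h2 := congrFun hst j1
    simp only [Pi.add_apply, Pi.smul_apply, smul_eq_mul, Pi.zero_apply, h1, zero_mul,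
      zero_add] at h2
    exact ⟨h1, (mul_eq_zero.1 h2).resolve_right hj1⟩
  -- the hypersurface does not contain the line
  have hR : restr F a b ≠ 0 := by
    obtain ⟨τ0, hτ0⟩ := hline σ0 (Finsupp.mem_support_iff.1 hσ0)
    have hgen' : IntermediateField.adjoin ℂ (Set.range fun j => x j / x j0) = ⊤ := by
      simp only [hj0, div_one]
      exact hgen
    obtain ⟨s, hs'⟩ := exists_s hK hgen'
    have hs2 : AlgebraicIndependent ℂ (fun i : Fin n => σ0 (x (s i)) / σ0 (x j0)) := by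
      have h1 := hs'.map' (f := σ0) σ0.injective
      have h2 : (fun i : Fin n => σ0 (x (s i)) / σ0 (x j0)) = σ0 ∘ fun i => x (s i) / x j0 := by
        funext i
        change _ = σ0 (x (s i) / x j0)
        rw [map_div₀]
      rw [h2]
      exact h1
    exact Pool.Agent.Y363.NT.t_NL Ω n n d hn y hy F hs hF (by omega) a b habI Ω τ0
      (fun j => σ0 (x j)) (fun j => hτ0 j) j0 (by
        change σ0 (x j0) ≠ 0
        rw [hx0]
        exact one_ne_zero) s hs2
  -- the parameters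
  choose! t ht using hline
  have htinj : ∀ σ ∈ f.support, ∀ τ ∈ f.support, t σ = t τ → σ = τ := by
    intro σ hσ τ hτ h
    refine hom_ext hgen fun j => ?_
    rw [ht σ (Finsupp.mem_support_iff.1 hσ), ht τ (Finsupp.mem_support_iff.1 hτ), h]
  -- the relations on the line
  have hrelt : ∀ j ≤ m, ∑ σ ∈ f.support, (f σ : Ω) *
      (rows (fun j => σ (c j)) (fun j => σ (x j)) D).det * t σ ^ j = 0 := by
    intro j hj
    obtain ⟨κ, hκ⟩ : ∃ κ : Module.Dual Ω (Fin (n + 2) → Ω), ∀ v, κ v =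
        (v j1 - a j1 * v j0) / b j1 := by
      refine ⟨(b j1)⁻¹ • (LinearMap.proj j1 - a j1 • LinearMap.proj j0), fun v => ?_⟩
      simp only [LinearMap.smul_apply, LinearMap.sub_apply, LinearMap.proj_apply, smul_eq_mul]
      field_simp
    have h1 := hrel fun k => if (k : ℕ) < j then κ else LinearMap.proj j0
    rw [← h1]
    refine Finset.sum_congr rfl fun σ hσ => ?_
    congr 1
    have h2 : ∀ k : Fin m, (if (k : ℕ) < j then κ else LinearMap.proj j0) (fun i => σ (x i)) =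
        if (k : ℕ) < j then t σ else 1 := by
      intro k
      split_ifs
      · rw [hκ]
        change (σ (x j1) - a j1 * σ (x j0)) / b j1 = t σ
        rw [hx0, ht σ (Finsupp.mem_support_iff.1 hσ) j1]
        field_simp
        ring
      · exact hx0 σ
    rw [Finset.prod_congr rfl fun k _ => h2 k, Finset.prod_ite, Finset.prod_const_one, mul_one,
      Finset.prod_const]
    congr 1
    have h4 : (Finset.univ.filter fun k : Fin m => (k : ℕ) < j).card = j := by
      rw [Fin.card_filter_val_lt]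
      omega
    exact h4.symm
  refine ⟨a, b, haj, hbj, hb0, hR, fun σ hσ => ⟨t σ, ht σ hσ⟩, ?_⟩
  have hfr := frac (R := restr F a b) (J := jb D a b) (m := m) (n := n) hR
    ((Pool.Agent.Y692.NT.restr_coeff hF a b).1.trans hm.ge) (natDegree_jb D a b) f.support t
    (fun σ => (rows (fun j => σ (c j)) (fun j => σ (x j)) D).det) (fun σ => f σ) htinj hrelt
    (fun τ => ∃ σ : K →ₐ[ℂ] Ω, ∀ j, σ (x j) = a j + τ * b j)
    (fun σ hσ => ⟨σ, ht σ (Finsupp.mem_support_iff.1 hσ)⟩) ?_ hm0 hn0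
  · intro σ τ hστ
    obtain ⟨σ', hσ', h1, h2⟩ := hfr τ ⟨σ, hστ⟩
    have h3 : σ' = σ := by
      refine hom_ext hgen fun j => ?_
      rw [ht σ' (Finsupp.mem_support_iff.1 hσ'), hστ, h1]
    rw [← h3]
    exact h2
  · rintro τ ⟨σ, hσ⟩
    obtain ⟨e, R1, J1, h1, h2, h3, h4⟩ := local_data hF (by omega) hx hc hj0 hgen hK hΩ hy hD hR hσ
    refine ⟨_, e, R1, J1, hμ σ, h1, h2, h3, h4, ?_⟩
    intro σ' hσ' h5
    have h6 : σ' = σ := by
      refine hom_ext hgen fun j => ?_
      rw [ht σ' (Finsupp.mem_support_iff.1 hσ'), hσ, h5]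
    rw [h6]

/-- many points have the same multiplicity -/
theorem same_mult {F : MvPolynomial (Fin (n + 2)) ℂ} (hs : Sm F)
    (hF : F.IsHomogeneous d) (hd : n + 2 ≤ d) {x : Fin (n + 2) → K}
    (hx : MvPolynomial.aeval x F = 0) {j0 : Fin (n + 2)} (hj0 : x j0 = 1)
    (hgen : IntermediateField.adjoin ℂ (Set.range x) = ⊤)
    (hK : Algebra.trdeg ℂ K = (n : ℕ)) (hΩ : Algebra.trdeg ℂ Ω = (n : ℕ))
    {f : (K →ₐ[ℂ] Ω) →₀ ℤ} (hf : NullTrace n f) (hf0 : f ≠ 0)
    (hv : n * ((f.support.image f).card + 1) < d) :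
    ∃ m0 : ℤ, m0 ≠ 0 ∧ n < (f.support.filter fun σ => f σ = m0).card := by
  classical
  have h1 := many_points hs hF hd hx hj0 hgen hK hΩ hf hf0
  obtain ⟨m0, hm0, h2⟩ := Finset.exists_lt_card_fiber_of_mul_lt_card_of_maps_to
    (s := f.support) (t := f.support.image f) (f := f) (n := n)
    (fun σ hσ => Finset.mem_image_of_mem _ hσ) (by
      rw [mul_comm, add_mul, one_mul] at hv
      omega)
  refine ⟨m0, ?_, h2⟩
  obtain ⟨σ, hσ, rfl⟩ := Finset.mem_image.1 hm0
  exact Finsupp.mem_support_iff.1 hσ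

end

end Pool.Agent.N162.HS
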