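import Pool.Agent.N162.HS.Pt
import Pool.Agent.N162.HS.Emb
import Pool.Agent.N162.HS.Line
import Pool.Agent.N162.BC.Pull

/-!
The generic points of a smooth hypersurface on a line: rational equivalence.
-/

set_option autoImplicit false
set_option linter.overlappingInstances false
set_option linter.unusedSectionVars false
set_option linter.unusedVariables false

open FF Polynomial Pool.Agent.Y184.NT Pool.Agent.Y988.NT Pool.Agent.Y653 Pool.Agent.W603.LV
  Pool.Agent.Helper740.RegExt Pool.Agent.N162.BC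
open scoped Polynomial.Bivariate

namespace Pool.Agent.N162.HS

section

variable {A : Type} [Field A] [Algebra ℂ A] {n d : ℕ}

/-- the equation of the section by the plane through `a`, `b` and `w` -/
noncomputable def sect (F : MvPolynomial (Fin (n + 2)) ℂ) (a b w : Fin (n + 2) → A) : A[X][Y] :=
  MvPolynomial.aeval (fun j => C (lin a b j) + X * C (C (w j))) F

theorem sect_coeff_zero (F : MvPolynomial (Fin (n + 2)) ℂ) (a b w : Fin (n + 2) → A) :
    (sect F a b w).coeff 0 = restr F a b := by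
  have h1 := MvPolynomial.comp_aeval_apply
    (φ := (aeval (0 : A[X]) : A[X][Y] →ₐ[A[X]] A[X]).restrictScalars ℂ)
    (fun j => C (lin a b j) + X * C (C (w j))) F
  have h2 : (fun j => (aeval (0 : A[X]) : A[X][Y] →ₐ[A[X]] A[X]).restrictScalars ℂ
      (C (lin a b j) + X * C (C (w j)))) = lin a b := by
    funext j
    change aeval (0 : A[X]) _ = _
    simp
  rw [h2] at h1
  rw [coeff_zero_eq_aeval_zero]
  exact h1

theorem val_sect (F : MvPolynomial (Fin (n + 2)) ℂ) (a b w : Fin (n + 2) → A) (τ : A) :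
    val τ (sect F a b w) = MvPolynomial.aeval (fun j => a j + τ * b j) F := by
  unfold val
  rw [sect_coeff_zero, restr_eval]

theorem sect_coeff_one (F : MvPolynomial (Fin (n + 2)) ℂ) (a b w : Fin (n + 2) → A) (τ : A) :
    ((sect F a b w).coeff 1).eval τ =
      ∑ l, MvPolynomial.aeval (fun j => a j + τ * b j) (MvPolynomial.pderiv l F) * w l := by
  have h0 : (sect F a b w).coeff 1 = (derivative (sect F a b w)).coeff 0 := by
    rw [coeff_derivative]
    simp
  have h1 := chain ((Polynomial.derivative' : Derivation A[X] A[X][Y] A[X][Y]).restrictScalars ℂ)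
    (fun j => C (lin a b j) + X * C (C (w j))) F
  have h2 : derivative (sect F a b w) =
      ((Polynomial.derivative' : Derivation A[X] A[X][Y] A[X][Y]).restrictScalars ℂ)
        (MvPolynomial.aeval (fun j => C (lin a b j) + X * C (C (w j))) F) := rfl
  rw [h0, h2, h1, finset_sum_coeff, eval_finset_sum]
  refine Finset.sum_congr rfl fun l _ => ?_
  have h3 : ((Polynomial.derivative' : Derivation A[X] A[X][Y] A[X][Y]).restrictScalars ℂ)
      (C (lin a b l) + X * C (C (w l))) = C (C (w l)) := by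
    change derivative (C (lin a b l) + X * C (C (w l))) = _
    rw [derivative_add, derivative_C, zero_add, derivative_mul, derivative_X, derivative_C,
      mul_zero, add_zero, one_mul]
  rw [h3, coeff_mul_C, eval_mul, eval_C]
  congr 1
  exact val_sect (MvPolynomial.pderiv l F) a b w τ

theorem ev_sect {M : Type} [Field M] [Algebra A M] [Algebra ℂ M] [IsScalarTower ℂ A M] (ξ η : M)
    (F : MvPolynomial (Fin (n + 2)) ℂ) (a b w : Fin (n + 2) → A) :
    ev (algebraMap A M) ξ η (sect F a b w) = MvPolynomial.aeval (fun j => algebraMap A M (a j) +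
      ξ * algebraMap A M (b j) + η * algebraMap A M (w j)) F := by
  let e : A[X][Y] →ₐ[ℂ] M := { ev (algebraMap A M) ξ η with
    commutes' := fun z => by
      change ev (algebraMap A M) ξ η (C (C (algebraMap ℂ A z))) = _
      rw [IsScalarTower.algebraMap_apply ℂ A M]
      simp [ev] }
  have h1 := MvPolynomial.comp_aeval_apply (φ := e) (fun j => C (lin a b j) + X * C (C (w j))) F
  change ev (algebraMap A M) ξ η (sect F a b w) = _ at h1
  rw [h1]
  congr 2
  funext j
  change ev (algebraMap A M) ξ η (C (lin a b j) + X * C (C (w j))) = _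
  unfold lin
  simp [ev]
  ring

end

section

variable {K Ω : Type} [Field K] [Algebra ℂ K] [Field Ω] [Algebra ℂ Ω] {n d : ℕ}

theorem cen_of_coord {M : Type} [Field M] [Algebra Ω M] {φ : K →+* M}
    (hφ : ∀ z : ℂ, φ (algebraMap ℂ K z) = algebraMap Ω M (algebraMap ℂ Ω z)) {P : Place Ω M}
    {σ : K →ₐ[ℂ] Ω} {x : Fin (n + 2) → K} (hgen : IntermediateField.adjoin ℂ (Set.range x) = ⊤)
    (h : ∀ j, Ge P 1 (φ (x j) - algebraMap Ω M (σ (x j)))) (κ : K) :
    Ge P 1 (φ κ - algebraMap Ω M (σ κ)) := by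
  have hκ : κ ∈ IntermediateField.adjoin ℂ (Set.range x) := by
    rw [hgen]
    trivial
  have h0 : ∀ a : K, Ge P 1 (φ a - algebraMap Ω M (σ a)) → Ge P 0 (φ a) := by
    intro a ha
    have h1 : φ a = (φ a - algebraMap Ω M (σ a)) + algebraMap Ω M (σ a) := by ring
    rw [h1]
    refine Ge.add ?_ (Ge.const _)
    rcases ha with h | h
    · exact Or.inl h
    · exact Or.inr (by omega)
  induction hκ using IntermediateField.adjoin_induction with
  | mem e he =>
    obtain ⟨l, rfl⟩ := he
    exact h l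
  | algebraMap c =>
    rw [hφ, AlgHom.commutes, sub_self]
    exact Ge.zero
  | add a b _ _ ha hb =>
    rw [map_add, map_add, map_add, add_sub_add_comm]
    exact ha.add hb
  | inv a _ ha =>
    by_cases ha0 : a = 0
    · rw [ha0, inv_zero, map_zero, map_zero, map_zero, sub_zero]
      exact Ge.zero
    · have hσ0 : σ a ≠ 0 := (map_ne_zero σ).2 ha0
      have hφ0 : φ a ≠ 0 := (map_ne_zero φ).2 ha0
      have hu : P.ord (φ a) = 0 := by
        by_cases hd : φ a - algebraMap Ω M (σ a) = 0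
        · rw [sub_eq_zero.1 hd, P.ord_const hσ0]
        · have h1 := ha.resolve_left hd
          have h2 := P.ord_add_eq (f := algebraMap Ω M (σ a)) (g := φ a - algebraMap Ω M (σ a))
            (by simpa using hσ0) hd (by rw [P.ord_const hσ0]; omega)
          rw [add_sub_cancel, P.ord_const hσ0] at h2
          exact h2.2
      have hσ0' : algebraMap Ω M (σ a) ≠ 0 := by simpa using hσ0
      have h1 : φ a⁻¹ - algebraMap Ω M (σ a⁻¹) =
          -((φ a - algebraMap Ω M (σ a)) * (φ a)⁻¹ * algebraMap Ω M (σ a)⁻¹) := by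
        rw [map_inv₀, map_inv₀, map_inv₀]
        field_simp
        ring
      rw [h1]
      have h2 : Ge P 0 (φ a)⁻¹ := Or.inr (by rw [P.ord_inv, hu]; simp)
      have h3 := (ha.mul h2).mul (Ge.const (P := P) (σ a)⁻¹)
      rw [add_zero, add_zero] at h3
      exact h3.neg
  | mul a b _ _ ha hb =>
    have h1 : φ (a * b) - algebraMap Ω M (σ (a * b)) = (φ b - algebraMap Ω M (σ b)) * φ a +
        (φ a - algebraMap Ω M (σ a)) * algebraMap Ω M (σ b) := by
      rw [map_mul, map_mul, map_mul]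
      ring
    rw [h1]
    have h2 := hb.mul (h0 a ha)
    have h3 := ha.mul (Ge.const (P := P) (σ b))
    rw [add_zero] at h2 h3
    exact h2.add h3

/-- one component of the plane section -/
theorem component [IsAlgClosed Ω] {F : MvPolynomial (Fin (n + 2)) ℂ} (hs : Sm F)
    (hF : F.IsHomogeneous d) {x : Fin (n + 2) → K} (hx : MvPolynomial.aeval x F = 0)
    {j0 : Fin (n + 2)} (hj0 : x j0 = 1) (hgen : IntermediateField.adjoin ℂ (Set.range x) = ⊤)
    (hK : Algebra.trdeg ℂ K = (n : ℕ)) {a b w : Fin (n + 2) → Ω} (ha : a j0 = 1) (hb : b j0 = 0)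
    (hw : w j0 = 0) {i1 i2 : Fin (n + 2)} (hbw : b i1 * w i2 - b i2 * w i1 ≠ 0)
    (hR : restr F a b ≠ 0) {p q : Polynomial (Polynomial Ω)} (hp : Irreducible p) (hpq : sect F a b w = p * q)
    (hG1 : ∀ (σ : K →ₐ[ℂ] Ω) (τ : Ω), (∀ j, σ (x j) = a j + τ * b j) →
      ((sect F a b w).coeff 1).eval τ ≠ 0)
    {σ0 : K →ₐ[ℂ] Ω} {τ0 : Ω} (hσ0 : ∀ j, σ0 (x j) = a j + τ0 * b j) (hp0 : val τ0 p = 0)
    {c : (K →ₐ[ℂ] Ω) →₀ ℤ}
    (hc : ∀ (σ : K →ₐ[ℂ] Ω) (τ : Ω), (∀ j, σ (x j) = a j + τ * b j) → val τ p = 0 →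
      c σ = (restr F a b).rootMultiplicity τ)
    (hc' : ∀ σ : K →ₐ[ℂ] Ω, c σ ≠ 0 → ∃ τ : Ω, (∀ j, σ (x j) = a j + τ * b j) ∧ val τ p = 0) :
    c ∈ Rat K Ω := by
  classical
  have hcΩ : CharZero Ω := charZero_of_injective_algebraMap (algebraMap ℂ Ω).injective
  have hval : ∀ (σ : K →ₐ[ℂ] Ω) (τ : Ω), (∀ j, σ (x j) = a j + τ * b j) →
      ∀ H : MvPolynomial (Fin (n + 2)) ℂ, val τ (sect H a b w) =
        σ (MvPolynomial.aeval x H) := by
    intro σ τ h H
    rw [val_sect, MvPolynomial.comp_aeval_apply (φ := σ) x H]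
    congr 2
    funext j
    rw [h]
  have hR' : restr F a b = p.coeff 0 * q.coeff 0 := by
    rw [← sect_coeff_zero F a b w, hpq, mul_coeff_zero]
  have hpc : p.coeff 0 ≠ 0 := by
    intro h
    rw [h, zero_mul] at hR'
    exact hR hR'
  have hqc : q.coeff 0 ≠ 0 := by
    intro h
    rw [h, mul_zero] at hR'
    exact hR hR'
  have hone : ∀ τ, ((sect F a b w).coeff 1).eval τ =
      val τ p * (q.coeff 1).eval τ + (p.coeff 1).eval τ * val τ q := by
    intro τ
    rw [hpq, mul_coeff_one, eval_add, eval_mul, eval_mul]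
    rfl
  have hp1 : ∀ (σ : K →ₐ[ℂ] Ω) (τ : Ω), (∀ j, σ (x j) = a j + τ * b j) → val τ p = 0 →
      (p.coeff 1).eval τ ≠ 0 ∧ val τ q ≠ 0 := by
    intro σ τ h h0
    have h1 := hG1 σ τ h
    rw [hone, h0, zero_mul, zero_add] at h1
    exact ⟨left_ne_zero_of_mul h1, right_ne_zero_of_mul h1⟩
  have hpos : 0 < p.natDegree := by
    have h1 := (hp1 σ0 τ0 hσ0 hp0).1
    have h2 : p.coeff 1 ≠ 0 := by
      intro h
      rw [h, eval_zero] at h1
      exact h1 rfl
    exact lt_of_lt_of_le one_pos (le_natDegree_of_ne_zero h2)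
  obtain ⟨M, iM, aM, ξ, η, hξ, hev, hgenM⟩ := exists_field hp hpos
  have hFF : IsFF Ω M := isFF_of_gen hξ hp.ne_zero hev hgenM
  have hker : ∀ H, ev (algebraMap Ω M) ξ η H = 0 → p ∣ H := fun H hH =>
    dvd_of_ev_eq_zero _ (fun r hr => transcendental_iff.1 hξ r hr) hp hpos hev hH
  let aCM : Algebra ℂ M := ((algebraMap Ω M).comp (algebraMap ℂ Ω)).toAlgebra
  have hst : IsScalarTower ℂ Ω M := IsScalarTower.of_algebraMap_eq fun z => rfl
  obtain ⟨x', hx'⟩ : ∃ x' : Fin (n + 2) → M, x' = fun j => algebraMap Ω M (a j) +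
    ξ * algebraMap Ω M (b j) + η * algebraMap Ω M (w j) := ⟨_, rfl⟩
  have hevs : ∀ H : MvPolynomial (Fin (n + 2)) ℂ, ev (algebraMap Ω M) ξ η (sect H a b w) =
      MvPolynomial.aeval x' H := by
    intro H
    rw [ev_sect, hx']
  obtain ⟨φ, hφ⟩ := exists_emb (M := M) hs hF hj0 hgen hK (x' := x') (by
      rw [hx']
      change algebraMap Ω M (a j0) + ξ * algebraMap Ω M (b j0) + η * algebraMap Ω M (w j0) = 1
      rw [ha, hb, hw, map_one, map_zero, mul_zero, mul_zero, add_zero, add_zero]) (by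
      rw [← hevs, hpq, map_mul, hev, zero_mul]) (by
      intro H hH
      rw [← hevs] at hH
      obtain ⟨r, hr⟩ := hker _ hH
      have h1 := hval σ0 τ0 hσ0 H
      rw [hr, val_mul, hp0, zero_mul] at h1
      exact (map_eq_zero σ0).1 h1.symm)
  have hφ' : ∀ j, φ (x j) = algebraMap Ω M (a j) +
      ξ * algebraMap Ω M (b j) + η * algebraMap Ω M (w j) := by
    intro j
    rw [hφ, hx']
  have hη0 : η ≠ 0 := by
    intro h
    obtain ⟨r, hr⟩ := hker X (by simp [ev, h])
    have h1 := congrArg (fun H : Polynomial (Polynomial Ω) => H.coeff 0) hr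
    have h2 := congrArg (fun H : Polynomial (Polynomial Ω) => H.coeff 1) hr
    simp only [coeff_X_zero, mul_coeff_zero, coeff_X_one, mul_coeff_one] at h1 h2
    have h3 : r.coeff 0 = 0 := (mul_eq_zero.1 h1.symm).resolve_left hpc
    rw [h3, mul_zero, add_zero] at h2
    have h4 := congrArg (eval τ0) h2
    rw [eval_one, eval_mul] at h4
    have h5 : eval τ0 (p.coeff 0) = 0 := hp0
    rw [h5, zero_mul] at h4
    exact one_ne_zero h4
  -- the centre of a place
  have hcen : ∀ (v : Place Ω M) (σ : K →ₐ[ℂ] Ω), CentredAt (φ : K →+* M) v σ →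
      ∃ T0 Y0 : Ω, (∀ j, σ (x j) = a j + T0 * b j + Y0 * w j) ∧
        Ge v 1 (ξ - algebraMap Ω M T0) ∧ Ge v 1 (η - algebraMap Ω M Y0) := by
    intro v σ hv
    rw [centred_iff] at hv
    have hv' : ∀ j, Ge v 1 (algebraMap Ω M (a j) + ξ * algebraMap Ω M (b j) +
        η * algebraMap Ω M (w j) - algebraMap Ω M (σ (x j))) := by
      intro j
      have h1 := hv (x j)
      have h2 : (φ : K →+* M) (x j) = φ (x j) := rfl
      rw [h2, hφ'] at h1
      exact h1
    obtain ⟨δ, hδ⟩ : ∃ δ, δ = b i1 * w i2 - b i2 * w i1 := ⟨_, rfl⟩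
    rw [← hδ] at hbw
    obtain ⟨T0, hT0⟩ : ∃ T0, T0 = ((σ (x i1) - a i1) * w i2 - (σ (x i2) - a i2) * w i1) / δ :=
      ⟨_, rfl⟩
    obtain ⟨Y0, hY0⟩ : ∃ Y0, Y0 = (b i1 * (σ (x i2) - a i2) - b i2 * (σ (x i1) - a i1)) / δ :=
      ⟨_, rfl⟩
    have hT0' : T0 * δ = (σ (x i1) - a i1) * w i2 - (σ (x i2) - a i2) * w i1 := by
      rw [hT0, div_mul_cancel₀ _ hbw]
    have hY0' : Y0 * δ = b i1 * (σ (x i2) - a i2) - b i2 * (σ (x i1) - a i1) := by
      rw [hY0, div_mul_cancel₀ _ hbw]
    have hδM : algebraMap Ω M δ ≠ 0 := by simpa using hbw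
    have e1 : (ξ - algebraMap Ω M T0) * algebraMap Ω M δ =
        (algebraMap Ω M (a i1) + ξ * algebraMap Ω M (b i1) +
          η * algebraMap Ω M (w i1) - algebraMap Ω M (σ (x i1))) * algebraMap Ω M (w i2) -
        (algebraMap Ω M (a i2) + ξ * algebraMap Ω M (b i2) +
          η * algebraMap Ω M (w i2) - algebraMap Ω M (σ (x i2))) * algebraMap Ω M (w i1) := by
      have h1 := congrArg (algebraMap Ω M) hT0'
      have h2 := congrArg (algebraMap Ω M) hδ
      simp only [map_mul, map_sub] at h1 h2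
      linear_combination (-1 : M) * h1 + ξ * h2
    have e2 : (η - algebraMap Ω M Y0) * algebraMap Ω M δ =
        (algebraMap Ω M (a i2) + ξ * algebraMap Ω M (b i2) +
          η * algebraMap Ω M (w i2) - algebraMap Ω M (σ (x i2))) * algebraMap Ω M (b i1) -
        (algebraMap Ω M (a i1) + ξ * algebraMap Ω M (b i1) +
          η * algebraMap Ω M (w i1) - algebraMap Ω M (σ (x i1))) * algebraMap Ω M (b i2) := by
      have h1 := congrArg (algebraMap Ω M) hY0'
      have h2 := congrArg (algebraMap Ω M) hδ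
      simp only [map_mul, map_sub] at h1 h2
      linear_combination (-1 : M) * h1 + η * h2
    have hdiv : ∀ f : M, Ge v 1 (f * algebraMap Ω M δ) → Ge v 1 f := by
      intro f hf
      have h1 := hf.mul (Ge.const (P := v) δ⁻¹)
      rw [add_zero, mul_assoc, ← map_mul, mul_inv_cancel₀ hbw, map_one, mul_one] at h1
      exact h1
    have hge : ∀ (f g : M) (r t : Ω), Ge v 1 f → Ge v 1 g →
        Ge v 1 (f * algebraMap Ω M r - g * algebraMap Ω M t) := by
      intro f g r t hf hg
      have h1 := hf.mul (Ge.const (P := v) r)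
      have h2 := hg.mul (Ge.const (P := v) t)
      rw [add_zero] at h1 h2
      exact h1.sub h2
    have g1 : Ge v 1 (ξ - algebraMap Ω M T0) := by
      apply hdiv
      rw [e1]
      exact hge _ _ _ _ (hv' i1) (hv' i2)
    have g2 : Ge v 1 (η - algebraMap Ω M Y0) := by
      apply hdiv
      rw [e2]
      exact hge _ _ _ _ (hv' i2) (hv' i1)
    refine ⟨T0, Y0, fun j => ?_, g1, g2⟩
    have h1 : Ge v 1 (algebraMap Ω M (a j + T0 * b j + Y0 * w j - σ (x j))) := by
      have h2 : algebraMap Ω M (a j + T0 * b j + Y0 * w j - σ (x j)) =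
          (algebraMap Ω M (a j) + ξ * algebraMap Ω M (b j) +
          η * algebraMap Ω M (w j) - algebraMap Ω M (σ (x j))) -
          ((ξ - algebraMap Ω M T0) * algebraMap Ω M (b j) -
            (η - algebraMap Ω M Y0) * algebraMap Ω M (-w j)) := by
        simp only [map_add, map_sub, map_mul, map_neg]
        ring
      rw [h2]
      exact (hv' j).sub (hge _ _ _ _ g1 g2)
    exact (sub_eq_zero.1 (not_ge_const h1)).symm
  have hzeroval : ∀ (v : Place Ω M) (T0 : Ω), Ge v 1 (ξ - algebraMap Ω M T0) → Ge v 1 η →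
      val T0 p = 0 := by
    intro v T0 h1 h2
    by_contra hne
    exact (ev_unit v h1 h2 hne).1 hev
  refine AddSubgroup.subset_closure ⟨M, iM, aM, hFF, (φ : K →+* M), η, fun z => ?_, hη0, ?_⟩
  · exact φ.commutes z
  intro σ
  by_cases hσ : ∃ τ : Ω, (∀ j, σ (x j) = a j + τ * b j) ∧ val τ p = 0
  · obtain ⟨τ, hτ, hτp⟩ := hσ
    obtain ⟨hp1τ, hqτ⟩ := hp1 σ τ hτ hτp
    obtain ⟨P, hP1, hP2⟩ := exists_place_at (k := Ω) (M := M) hτp hker hξ
    have hPc : CentredAt (φ : K →+* M) P σ := by
      rw [centred_iff]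
      refine cen_of_coord (Ω := Ω) (M := M) (φ := (φ : K →+* M)) (σ := σ)
        (fun z => φ.commutes z) hgen fun j => ?_
      have h2 : (φ : K →+* M) (x j) = φ (x j) := rfl
      rw [h2, hφ', hτ]
      have h3 : algebraMap Ω M (a j) + ξ * algebraMap Ω M (b j) + η * algebraMap Ω M (w j) -
          algebraMap Ω M (a j + τ * b j) = (ξ - algebraMap Ω M τ) * algebraMap Ω M (b j) +
            η * algebraMap Ω M (w j) := by
        rw [map_add, map_mul]
        ring
      rw [h3]
      have h4 := hP1.mul (Ge.const (P := P) (b j))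
      have h5 := hP2.mul (Ge.const (P := P) (w j))
      rw [add_zero] at h4 h5
      exact h4.add h5
    have hset : {v : Place Ω M | CentredAt (φ : K →+* M) v σ} = {P} := by
      ext v
      rw [Set.mem_ofPred_eq, Set.mem_singleton_iff]
      constructor
      · intro hv
        obtain ⟨T0, Y0, h1, h2, h3⟩ := hcen v σ hv
        have e1 : (T0 - τ) * b i1 + Y0 * w i1 = 0 := by
          linear_combination hτ i1 - h1 i1
        have e2 : (T0 - τ) * b i2 + Y0 * w i2 = 0 := by
          linear_combination hτ i2 - h1 i2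
        have e3 : T0 - τ = 0 := by
          apply mul_right_cancel₀ hbw
          linear_combination w i2 * e1 - w i1 * e2
        have e4 : Y0 = 0 := by
          apply mul_right_cancel₀ hbw
          linear_combination b i1 * e2 - b i2 * e1
        rw [sub_eq_zero.1 e3] at h2
        rw [e4, map_zero, sub_zero] at h3
        exact place_unique hev hτp hp1τ hξ hgenM v P h2 h3 hP1 hP2
      · rintro rfl
        exact hPc
    rw [hset, finsum_mem_singleton, ord_eta hev hτp hp1τ hξ hgenM P hP1 hP2 hpc, hc σ τ hτ hτp]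
    rw [hR', rootMultiplicity_mul (mul_ne_zero hpc hqc), rootMultiplicity_eq_zero (p := q.coeff 0)
      (by exact hqτ), add_zero]
  · have h0 : c σ = 0 := by
      by_contra hne
      exact hσ (hc' σ hne)
    rw [h0]
    symm
    refine finsum_mem_eq_zero_of_forall_eq_zero fun v hv => ?_
    obtain ⟨T0, Y0, h1, h2, h3⟩ := hcen v σ hv
    have hY0 : Y0 ≠ 0 := by
      intro h
      apply hσ
      rw [h, map_zero, sub_zero] at h3
      refine ⟨T0, fun j => ?_, hzeroval v T0 h2 h3⟩
      rw [h1, h]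
      ring
    by_cases hd : η - algebraMap Ω M Y0 = 0
    · rw [sub_eq_zero.1 hd, v.ord_const hY0]
    · have h4 := h3.resolve_left hd
      have h5 := v.ord_add_eq (f := algebraMap Ω M Y0) (g := η - algebraMap Ω M Y0)
        (by simpa using hY0) hd (by rw [v.ord_const hY0]; omega)
      rw [add_sub_cancel, v.ord_const hY0] at h5
      exact h5.2

end

end Pool.Agent.N162.HS
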