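import Pool.Agent.Y363.NT.NL
import Pool.Agent.Y692.NT.JacA
import Pool.Agent.Y184.NT.Prep
import Pool.Agent.Y988.NT.Res

/-!
The residue of the Jacobian determinant of a family of lines at a point of a hypersurface.
-/

set_option autoImplicit false
set_option linter.overlappingInstances false
set_option linter.unusedSectionVars false

open Polynomial Pool.Agent.Y184.NT Pool.Agent.Y653 Pool.Agent.Y692.NT

namespace Pool.Agent.N162.HS

section

variable {M : Type} [Field M] [Algebra ℂ M] {n d : ℕ}

/-- the Jacobian determinant of the family of the lines through `a` and `b`: the matrix has the rows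
`b`, `a + T b` and `E i a + T E i b` -/
noncomputable def jb (E : Fin n → Derivation ℂ M M) (a b : Fin (n + 2) → M) : M[X] :=
  (mat3 (fun j => C (b j)) (lin a b) fun i => lin (fun j => E i (a j)) (fun j => E i (b j))).det

theorem natDegree_jb (E : Fin n → Derivation ℂ M M) (a b : Fin (n + 2) → M) :
    (jb E a b).natDegree ≤ n := by
  unfold jb
  rw [mat3_swap, natDegree_neg]
  exact natDegree_jac E a b

theorem lin_comp (a b : Fin (n + 2) → M) (τ : M) (j : Fin (n + 2)) :
    (lin a b j).comp (X + C τ) = lin (fun j => a j + τ * b j) b j := by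
  unfold lin
  rw [add_comp, C_comp, mul_comp, X_comp, C_comp, C_add, C_mul]
  ring

theorem restr_comp (F : MvPolynomial (Fin (n + 2)) ℂ) (a b : Fin (n + 2) → M) (τ : M) :
    (restr F a b).comp (X + C τ) = restr F (fun j => a j + τ * b j) b := by
  have h1 := MvPolynomial.comp_aeval_apply
    (φ := (aeval (X + C τ) : M[X] →ₐ[M] M[X]).restrictScalars ℂ) (lin a b) F
  have h2 : (fun j => (aeval (X + C τ) : M[X] →ₐ[M] M[X]).restrictScalars ℂ (lin a b j)) =
      lin (fun j => a j + τ * b j) b := by
    funext j
    rw [← lin_comp a b τ j, comp_eq_aeval]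
    rfl
  rw [h2] at h1
  unfold restr
  rw [← h1, comp_eq_aeval]
  rfl

/-- the Jacobian determinant does not depend on the base point -/
theorem jb_comp (E : Fin n → Derivation ℂ M M) (a b : Fin (n + 2) → M) (τ : M) :
    (jb E a b).comp (X + C τ) = jb E (fun j => a j + τ * b j) b := by
  unfold jb
  have h1 := (compRingHom (X + C τ : M[X])).map_det
    (mat3 (fun j => C (b j)) (lin a b) fun i => lin (fun j => E i (a j)) (fun j => E i (b j)))
  change Polynomial.comp _ _ = _ at h1
  rw [h1]
  rw [← mat3_add (fun j => C (b j)) (lin (fun j => a j + τ * b j) b)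
    (fun i => lin (fun j => E i (a j + τ * b j)) (fun j => E i (b j))) fun i => -C (E i τ)]
  congr 1
  ext1 i j
  rw [RingHom.mapMatrix_apply, Matrix.map_apply]
  refine Fin.cases ?_ (fun i => ?_) i
  · rw [mat3_zero, mat3_zero]
    exact C_comp
  · refine Fin.cases ?_ (fun i => ?_) i
    · rw [mat3_one, mat3_one]
      exact lin_comp a b τ j
    · rw [mat3_ss, mat3_ss]
      change (lin (fun j => E i (a j)) (fun j => E i (b j)) j).comp (X + C τ) = _
      rw [lin_comp]
      unfold lin
      simp only [map_add, (E i).leibniz, smul_eq_mul]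
      simp only [C_add, C_mul]
      ring

/-- **The residue at a point of the hypersurface.** -/
theorem residue {F : MvPolynomial (Fin (n + 2)) ℂ} (hF : F.IsHomogeneous d)
    (E : Fin n → Derivation ℂ M M) (P b c : Fin (n + 2) → M)
    (hc : ∑ l, MvPolynomial.aeval P (MvPolynomial.pderiv l F) * c l = 1) {e : ℕ} {R1 : M[X]}
    (hR : restr F P b = X ^ (e + 1) * R1) :
    ∃ J1 : M[X], jb E P b = X ^ e * J1 ∧
      J1.eval 0 = (e + 1 : ℕ) * R1.eval 0 * (rows c P E).det := by
  classical
  obtain ⟨A, hA⟩ : ∃ A, A = mat3 (fun j => C (b j)) (lin P b)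
    (fun i => lin (fun j => E i (P j)) (fun j => E i (b j))) := ⟨_, rfl⟩
  have hAdet : jb E P b = A.det := by rw [hA]; rfl
  obtain ⟨g, hg⟩ : ∃ g : Fin (n + 2) → M[X],
    g = fun l => MvPolynomial.aeval (lin P b) (MvPolynomial.pderiv l F) := ⟨_, rfl⟩
  -- the rows
  have hb : ∑ l, C (b l) * g l = derivative (restr F P b) := by
    have h1 := chain ((Polynomial.derivative' : Derivation M M[X] M[X]).restrictScalars ℂ)
      (lin P b) F
    have h0 : derivative (restr F P b) =
        ((Polynomial.derivative' : Derivation M M[X] M[X]).restrictScalars ℂ)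
          (MvPolynomial.aeval (lin P b) F) := rfl
    rw [h0, h1, hg]
    refine Finset.sum_congr rfl fun l _ => ?_
    have h2 : ((Polynomial.derivative' : Derivation M M[X] M[X]).restrictScalars ℂ) (lin P b l) =
        C (b l) := by
      change Polynomial.derivative (lin P b l) = _
      unfold lin
      rw [map_add, derivative_C, zero_add, derivative_mul, derivative_X, derivative_C, mul_zero,
        add_zero, one_mul]
    rw [h2, mul_comm]
  have ha : ∑ l, lin P b l * g l = (d : M[X]) * restr F P b := by
    have h1 := congrArg (MvPolynomial.aeval (lin P b)) hF.sum_X_mul_pderiv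
    rw [map_sum, map_nsmul, nsmul_eq_mul] at h1
    change _ = (d : M[X]) * restr F P b at h1
    rw [← h1, hg]
    refine Finset.sum_congr rfl fun l _ => ?_
    rw [map_mul, MvPolynomial.aeval_X]
  have hw : ∀ i, ∑ l, lin (fun j => E i (P j)) (fun j => E i (b j)) l * g l =
      cD (E i) (restr F P b) := by
    intro i
    have h1 := chain (cD (E i)) (lin P b) F
    change cD (E i) (restr F P b) = _ at h1
    rw [h1, hg]
    refine Finset.sum_congr rfl fun l _ => ?_
    have h2 : cD (E i) (lin P b l) = lin (fun j => E i (P j)) (fun j => E i (b j)) l := by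
      unfold lin
      rw [map_add, cD_C, Derivation.leibniz, cD_C]
      have h3 : cD (E i) (X : M[X]) = 0 := by
        have := cD_X_pow (E i) 1
        rwa [pow_one] at this
      rw [h3, smul_zero, add_zero, smul_eq_mul]
    rw [h2, mul_comm]
  obtain ⟨w, hwdef⟩ : ∃ w : Fin (n + 2) → M[X], w = Fin.cons (((e + 1 : ℕ) : M[X]) * R1 + X * derivative R1)
    (Fin.cons (X * ((d : M[X]) * R1)) fun i => X * cD (E i) R1 : Fin (n + 1) → M[X]) := ⟨_, rfl⟩
  have hAg : A.mulVec g = fun i => X ^ e * w i := by
    funext i
    rw [Matrix.mulVec, dotProduct]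
    refine Fin.cases ?_ (fun i => ?_) i
    · rw [hA]
      simp only [mat3_zero]
      rw [hb, hR, hwdef, Fin.cons_zero, derivative_mul, derivative_X_pow]
      rw [map_natCast, Nat.add_sub_cancel]
      ring
    · refine Fin.cases ?_ (fun i => ?_) i
      · rw [hA]
        simp only [mat3_one]
        rw [ha, hR, hwdef, Fin.cons_succ, Fin.cons_zero]
        ring
      · rw [hA]
        simp only [mat3_ss]
        rw [hw, hR, hwdef, Fin.cons_succ, Fin.cons_succ, Derivation.leibniz, cD_X_pow, smul_zero,
          add_zero, smul_eq_mul]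
        ring
  -- Cramer
  obtain ⟨y, hy⟩ : ∃ y : Fin (n + 2) → M[X], y = Matrix.vecMul (fun j => C (c j)) A.adjugate :=
    ⟨_, rfl⟩
  have hcr : A.det * ∑ j, C (c j) * g j = X ^ e * ∑ i, y i * w i := by
    have h1 : y ⬝ᵥ A.mulVec g = A.det * ∑ j, C (c j) * g j := by
      rw [hy, Matrix.dotProduct_mulVec, Matrix.vecMul_vecMul, Matrix.adjugate_mul,
        Matrix.vecMul_smul, Matrix.vecMul_one, smul_dotProduct, smul_eq_mul]
      rfl
    rw [← h1, hAg, dotProduct, Finset.mul_sum]
    refine Finset.sum_congr rfl fun i _ => ?_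
    ring
  -- the value of the gradient
  have hev : ∀ G : MvPolynomial (Fin (n + 2)) ℂ,
      (MvPolynomial.aeval (lin P b) G : M[X]).eval 0 = MvPolynomial.aeval P G := by
    intro G
    have h1 := restr_eval G P b 0
    unfold restr at h1
    rw [h1]
    congr 2
    funext j
    ring
  have hcg : (∑ j, C (c j) * g j).eval 0 = 1 := by
    rw [eval_finset_sum, ← hc]
    refine Finset.sum_congr rfl fun j _ => ?_
    rw [eval_mul, eval_C, hg, hev]
    ring
  have hdvd : X ^ e ∣ A.det := by
    have hco : IsCoprime (X ^ e : M[X]) (∑ j, C (c j) * g j) := by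
      apply IsCoprime.pow_left
      have h1 : X ∣ (∑ j, C (c j) * g j) - 1 := by
        rw [X_dvd_iff, coeff_zero_eq_eval_zero, eval_sub, hcg, eval_one, sub_self]
      obtain ⟨q, hq⟩ := h1
      exact ⟨-q, 1, by linear_combination hq⟩
    refine hco.dvd_of_dvd_mul_right ?_
    rw [hcr]
    exact Dvd.intro _ rfl
  obtain ⟨J1, hJ1⟩ := hdvd
  refine ⟨J1, by rw [hAdet, hJ1], ?_⟩
  have h2 : J1 * ∑ j, C (c j) * g j = ∑ i, y i * w i := by
    have h3 : (X ^ e : M[X]) ≠ 0 := pow_ne_zero _ X_ne_zero
    apply mul_left_cancel₀ h3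
    rw [← hcr, hJ1]
    ring
  have h3 := congrArg (eval 0) h2
  rw [eval_mul, hcg, mul_one] at h3
  rw [h3, Fin.sum_univ_succ, eval_add, eval_finset_sum]
  rw [Finset.sum_eq_zero, add_zero]
  · rw [eval_mul, hwdef, Fin.cons_zero]
    have h4 : (y 0).eval 0 = (rows c P E).det := by
      have h5 : y 0 = (mat3 (fun j => C (c j)) (lin P b)
          (fun i => lin (fun j => E i (P j)) (fun j => E i (b j)))).det := by
        obtain ⟨κ, hκ⟩ := mat3_lin (lin P b)
          (fun i => lin (fun j => E i (P j)) (fun j => E i (b j)))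
        rw [hκ, hy, Matrix.vecMul, dotProduct]
        refine Finset.sum_congr rfl fun j _ => ?_
        congr 1
        rw [Matrix.adjugate_apply]
        have h6 : A.updateRow 0 (Pi.single j 1) = mat3 (Pi.single j 1) (lin P b)
            (fun i => lin (fun j => E i (P j)) (fun j => E i (b j))) := by
          rw [hA]
          ext1 i k
          refine Fin.cases ?_ (fun i => ?_) i
          · rw [Matrix.updateRow_self]
            rfl
          · rw [Matrix.updateRow_ne (Fin.succ_ne_zero i)]
            rfl
        rw [h6, hκ, Finset.sum_eq_single j]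
        · simp
        · intro k _ hk
          rw [Pi.single_eq_of_ne hk, zero_mul]
        · intro h
          exact absurd (Finset.mem_univ _) h
      rw [h5]
      have h6 := (evalRingHom (0 : M)).map_det (mat3 (fun j => C (c j)) (lin P b)
          (fun i => lin (fun j => E i (P j)) (fun j => E i (b j))))
      change eval 0 _ = _ at h6
      rw [h6]
      congr 1
      ext1 i j
      rw [RingHom.mapMatrix_apply, Matrix.map_apply]
      have h7 : ∀ u v : Fin (n + 2) → M, (lin u v j).eval 0 = u j := by
        intro u v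
        unfold lin
        simp
      refine Fin.cases ?_ (fun i => ?_) i
      · rw [mat3_zero]
        change eval 0 (C (c j)) = _
        rw [eval_C]
        rfl
      · refine Fin.cases ?_ (fun i => ?_) i
        · rw [mat3_one]
          exact h7 _ _
        · rw [mat3_ss]
          exact h7 _ _
    rw [h4, eval_add, eval_mul, eval_mul, eval_X, zero_mul, add_zero, eval_natCast]
    ring
  · intro i _
    rw [eval_mul, hwdef, Fin.cons_succ]
    refine mul_eq_zero_of_right _ ?_
    refine Fin.cases ?_ (fun i => ?_) i
    · rw [Fin.cons_zero, eval_mul, eval_X, zero_mul]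
    · rw [Fin.cons_succ, eval_mul, eval_X, zero_mul]

end

end Pool.Agent.N162.HS
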