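import Pool.Agent.N162.BC.Lie
import Pool.Agent.N162.HS.Res
import Pool.Agent.Y153.NT.CB

/-!
The relations between the points of a cycle with null trace on a smooth hypersurface.
-/

set_option autoImplicit false
set_option linter.overlappingInstances false
set_option linter.unusedSectionVars false

open FF Polynomial Pool.Agent.Y184.NT Pool.Agent.W602.GT Pool.Agent.Y988.NT Pool.Agent.N162.BC

namespace Pool.Agent.N162.HS

section

variable {K Ω : Type} [Field K] [Algebra ℂ K] [Field Ω] [Algebra ℂ Ω] {n d m : ℕ}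

/-- the matrix at a point -/
theorem rows_pull (σ : K →ₐ[ℂ] Ω) {z : Fin n → K} (hz : IsTranscendenceBasis ℂ z)
    {E : Fin n → Derivation ℂ K K} (hE : ∀ i j, E i (z j) = if i = j then 1 else 0)
    (D : Fin n → Derivation ℂ Ω Ω) (c x : Fin (n + 2) → K) :
    (rows (fun j => σ (c j)) (fun j => σ (x j)) D).det =
      (Matrix.of fun i j => D i (σ (z j))).det * σ (rows c x E).det := by
  have hch : ∀ i (a : K), D i (σ a) = ∑ j, D i (σ (z j)) * σ (E j a) := by
    intro i a
    refine sub_eq_zero.1 (hom_der_ext σ hz (fun a => D i (σ a) - ∑ j, D i (σ (z j)) * σ (E j a))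
      (fun a b => ?_) (fun c a => ?_) (fun a b => ?_) (fun k => ?_) a)
    · simp only [map_add, mul_add, Finset.sum_add_distrib]
      ring
    · simp only [map_smul, (D i).map_smul, Derivation.map_smul, mul_smul_comm, smul_sub,
        Finset.smul_sum]
    · simp only [map_mul, Derivation.leibniz, smul_eq_mul, map_add, mul_add,
        Finset.sum_add_distrib, mul_sub, Finset.mul_sum]
      have e1 : ∀ j, D i (σ (z j)) * (σ a * σ (E j b)) = σ a * (D i (σ (z j)) * σ (E j b)) :=
        fun j => by ring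
      have e2 : ∀ j, D i (σ (z j)) * (σ b * σ (E j a)) = σ b * (D i (σ (z j)) * σ (E j a)) :=
        fun j => by ring
      simp only [e1, e2]
      ring
    · rw [Finset.sum_eq_single k]
      · rw [hE, if_pos rfl, map_one, mul_one, sub_self]
      · intro j _ hj
        rw [hE, if_neg hj, map_zero, mul_zero]
      · intro h
        exact absurd (Finset.mem_univ _) h
  have h1 : σ (rows c x E).det = (rows c x E |>.map σ).det := by
    have := σ.toRingHom.map_det (rows c x E)
    exact this
  obtain ⟨Mz, hMz⟩ : ∃ Mz : Matrix (Fin n) (Fin n) Ω, Mz = Matrix.of fun i j => D i (σ (z j)) :=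
    ⟨_, rfl⟩
  have h2 : rows (fun j => σ (c j)) (fun j => σ (x j)) D =
      bump 1 (fun _ => 0) (bump 1 (fun _ => 0) Mz) * (rows c x E).map σ := by
    have h3 : (rows c x E).map σ = Matrix.of (Fin.cons (fun j => σ (c j))
        (Fin.cons (fun j => σ (x j)) fun i j => σ (E i (x j)) :
          Fin (n + 1) → Fin (n + 2) → Ω) : Fin (n + 2) → Fin (n + 2) → Ω) := by
      ext1 i j
      rw [Matrix.map_apply]
      refine Fin.cases rfl (fun i => ?_) i
      refine Fin.cases rfl (fun i => rfl) i
    rw [h3, bump_mul]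
    ext1 i j
    refine Fin.cases ?_ (fun i => ?_) i
    · simp [rows]
    · have h4 := congrFun (congrFun (bump_mul 1 (fun _ => 0) Mz (fun j => σ (x j))
        fun i j => σ (E i (x j))) i) j
      rw [Matrix.mul_apply] at h4
      simp only [Matrix.of_apply, Fin.cons_succ, zero_mul, zero_add, one_mul] at h4 ⊢
      rw [h4]
      refine Fin.cases ?_ (fun i => ?_) i
      · simp [rows]
      · simp only [rows, Matrix.of_apply, Fin.cons_succ]
        rw [hch, hMz]
        rfl
  rw [h1, h2, Matrix.det_mul, det_bump, det_bump, hMz]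
  ring

/-- the determinant at a point is not zero -/
theorem rows_ne {F : MvPolynomial (Fin (n + 2)) ℂ} (hF : F.IsHomogeneous d) (hd : 2 ≤ d)
    {x c : Fin (n + 2) → K} (hx : MvPolynomial.aeval x F = 0)
    (hc : ∑ l, MvPolynomial.aeval x (MvPolynomial.pderiv l F) * c l = 1) {j0 : Fin (n + 2)}
    (hj0 : x j0 = 1) (hgen : IntermediateField.adjoin ℂ (Set.range x) = ⊤)
    (hK : Algebra.trdeg ℂ K = (n : ℕ)) (hΩ : Algebra.trdeg ℂ Ω = (n : ℕ)) {y : Fin n → Ω}
    (hy : IsTranscendenceBasis ℂ y) {D : Fin n → Derivation ℂ Ω Ω}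
    (hD : ∀ i j, D i (y j) = if i = j then 1 else 0) (σ : K →ₐ[ℂ] Ω) :
    (rows (fun j => σ (c j)) (fun j => σ (x j)) D).det ≠ 0 := by
  have hev : ∀ G : MvPolynomial (Fin (n + 2)) ℂ,
      MvPolynomial.aeval (fun j => σ (x j)) G = σ (MvPolynomial.aeval x G) := by
    intro G
    exact (MvPolynomial.comp_aeval_apply (φ := σ) x G).symm
  refine res_c Ω n d F hF hd _ _ ?_ ?_ ?_ D ?_
  · rw [hev, hx, map_zero]
  · rw [← map_one σ, ← hc, map_sum]
    refine Finset.sum_congr rfl fun l _ => ?_
    rw [map_mul, hev]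
  · intro δ hδ
    have h1 : ∀ j, δ (σ (x j)) = 0 := by
      intro j
      have h2 := hδ j0 j
      rw [hj0, map_one, one_mul, δ.map_one_eq_zero, mul_zero] at h2
      exact h2
    have h3 : ∀ a : K, δ (σ a) = 0 := by
      intro a
      have ha : a ∈ IntermediateField.adjoin ℂ (Set.range x) := by
        rw [hgen]
        trivial
      induction ha using IntermediateField.adjoin_induction with
      | mem e he =>
        obtain ⟨l, rfl⟩ := he
        exact h1 l
      | algebraMap c =>
        rw [AlgHom.commutes]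
        exact δ.map_algebraMap c
      | add a b _ _ ha hb => rw [map_add, map_add, ha, hb, add_zero]
      | inv a _ ha => rw [map_inv₀, δ.leibniz_inv, ha, smul_zero]
      | mul a b _ _ ha hb => rw [map_mul, δ.leibniz, ha, hb, smul_zero, smul_zero, add_zero]
    obtain ⟨z, hz⟩ := exists_tb (k := ℂ) (L := K) hK
    have hzi : AlgebraicIndependent ℂ (fun i => σ (z i)) := hz.1.map' (f := σ) σ.injective
    have hzb : IsTranscendenceBasis ℂ (fun i => σ (z i)) := by
      refine hzi.isTranscendenceBasis_of_trdeg_le ?_ ?_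
      · rw [hΩ]
        exact Cardinal.natCast_lt_aleph0
      · rw [hΩ]
        simp
    refine Pool.Agent.W602.GT.der_ext _ hzb fun i => ?_
    rw [h3]
    rfl
  · rw [Fintype.linearIndependent_iff]
    intro v hv i
    have h1 := congrArg (fun δ : Derivation ℂ Ω Ω => δ (y i)) hv
    simp only [sum_der, Derivation.coe_zero, Pi.zero_apply] at h1
    rw [Finset.sum_eq_single i] at h1
    · rw [hD, if_pos rfl, mul_one] at h1
      exact h1
    · intro j _ hj
      rw [hD, if_neg hj, mul_zero]
    · intro h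
      exact absurd (Finset.mem_univ _) h

/-- the relations for products of linear forms -/
theorem relations {F : MvPolynomial (Fin (n + 2)) ℂ} (hs : Sm F) (hF : F.IsHomogeneous d)
    (hm : m + n + 2 = d) {x c : Fin (n + 2) → K} (hx : MvPolynomial.aeval x F = 0)
    (hc : ∑ l, MvPolynomial.aeval x (MvPolynomial.pderiv l F) * c l = 1)
    (hK : Algebra.trdeg ℂ K = (n : ℕ)) {f : (K →ₐ[ℂ] Ω) →₀ ℤ} (hf : NullTrace n f)
    (D : Fin n → Derivation ℂ Ω Ω) (l : Fin m → Module.Dual Ω (Fin (n + 2) → Ω)) :
    ∑ σ ∈ f.support, ((f σ : Ω) * (rows (fun j => σ (c j)) (fun j => σ (x j)) D).det) *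
      ∏ k, l k (fun j => σ (x j)) = 0 := by
  classical
  obtain ⟨z, hz⟩ := exists_tb (k := ℂ) (L := K) hK
  choose E hE using fun i : Fin n => Pool.Agent.W602.GT.exists_der z hz
    fun j => if i = j then (1 : K) else 0
  have h1 : ∀ g : Fin m → Fin (n + 2), ∑ σ ∈ f.support, ((f σ : Ω) *
      (rows (fun j => σ (c j)) (fun j => σ (x j)) D).det) * ∏ k, σ (x (g k)) = 0 := by
    intro g
    obtain ⟨A, hA⟩ : ∃ A : MvPolynomial (Fin (n + 2)) ℂ, A = ∏ k, MvPolynomial.X (g k) :=
      ⟨_, rfl⟩
    have hAh : A.IsHomogeneous m := by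
      rw [hA]
      have h2 := MvPolynomial.IsHomogeneous.prod Finset.univ
        (fun k : Fin m => (MvPolynomial.X (g k) : MvPolynomial (Fin (n + 2)) ℂ)) (fun _ => 1)
        (fun k _ => MvPolynomial.isHomogeneous_X ℂ (g k))
      simpa using h2
    have h2 := hf (fun D : Fin n → Derivation ℂ K K => MvPolynomial.aeval x A * (rows c x D).det)
      ⟨res_a K n (MvPolynomial.aeval x A) c x, fun P _ =>
        res_b K n m d F A hs hF hAh hm c x hx hc P⟩ z E hz hE D
    rw [← h2]
    refine Finset.sum_congr rfl fun σ _ => ?_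
    rw [rows_pull σ hz hE]
    unfold pullback
    rw [map_mul, hA, map_prod, map_prod]
    simp only [MvPolynomial.aeval_X]
    ring
  have h2 : ∀ v : Fin (n + 2) → Ω, ∏ k, l k v =
      ∑ g : Fin m → Fin (n + 2), (∏ k, l k (Pi.single (g k) 1)) * ∏ k, v (g k) := by
    intro v
    have h3 : ∀ k, l k v = ∑ j, l k (Pi.single j 1) * v j := by
      intro k
      conv_lhs => rw [← Finset.univ_sum_single v, map_sum]
      refine Finset.sum_congr rfl fun j _ => ?_
      have h4 : (Pi.single j (v j) : Fin (n + 2) → Ω) = v j • Pi.single j 1 := by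
        rw [← Pi.single_smul, smul_eq_mul, mul_one]
      rw [h4, map_smul, smul_eq_mul, mul_comm]
    rw [Finset.prod_congr rfl fun k _ => h3 k, Finset.prod_univ_sum]
    refine Finset.sum_congr (by simp) fun g _ => ?_
    rw [Finset.prod_mul_distrib]
  simp only [h2, Finset.mul_sum]
  rw [Finset.sum_comm]
  refine Finset.sum_eq_zero fun g _ => ?_
  have h3 := congrArg (fun a => (∏ k, l k (Pi.single (g k) 1)) * a) (h1 g)
  simp only [mul_zero, Finset.mul_sum] at h3
  rw [← h3]
  refine Finset.sum_congr rfl fun σ _ => ?_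
  ring

end

end Pool.Agent.N162.HS
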