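import Pool.Agent.N162.HS.Sec

/-!
Line sections of a smooth hypersurface are rationally equivalent to zero, modulo cycles on
subvarieties which are defined over the constants.
-/

set_option autoImplicit false
set_option linter.overlappingInstances false
set_option linter.unusedSectionVars false
set_option linter.unusedVariables false

open FF Polynomial Pool.Agent.Y184.NT Pool.Agent.Y988.NT Pool.Agent.W603.LV
  Pool.Agent.Helper740.RegExt Pool.Agent.N162.BC
open scoped Polynomial.Bivariate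

namespace Pool.Agent.N162.HS

section

variable {K Ω : Type} [Field K] [Algebra ℂ K] [Field Ω] [Algebra ℂ Ω] {n d : ℕ}

/-- a plane through the line which is transversal to the hypersurface at finitely many points -/
theorem exists_plane {F : MvPolynomial (Fin (n + 2)) ℂ} (hn : 1 ≤ n) (hs : Sm F)
    (hF : F.IsHomogeneous d) {j0 : Fin (n + 2)} {b : Fin (n + 2) → Ω} (hb : b j0 = 0)
    (hb0 : b ≠ 0) (S : Finset (Fin (n + 2) → Ω))
    (hS : ∀ P ∈ S, P j0 = 1 ∧ MvPolynomial.aeval P F = 0) :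
    ∃ w : Fin (n + 2) → Ω, w j0 = 0 ∧ (∃ i1 i2, b i1 * w i2 - b i2 * w i1 ≠ 0) ∧
      ∀ P ∈ S, ∑ l, MvPolynomial.aeval P (MvPolynomial.pderiv l F) * w l ≠ 0 := by
  classical
  have hcΩ : CharZero Ω := charZero_of_injective_algebraMap (algebraMap ℂ Ω).injective
  obtain ⟨i1, hi1⟩ : ∃ i, b i ≠ 0 := by
    by_contra h
    push Not at h
    exact hb0 (funext h)
  have hi10 : i1 ≠ j0 := by
    rintro rfl
    exact hi1 hb
  obtain ⟨i2, hi2⟩ : ∃ i2, i2 ≠ i1 ∧ i2 ≠ j0 := by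
    have h1 : ({i1, j0} : Finset (Fin (n + 2))).card < (Finset.univ : Finset (Fin (n + 2))).card := by
      refine lt_of_le_of_lt Finset.card_le_two ?_
      rw [Finset.card_univ, Fintype.card_fin]
      omega
    obtain ⟨i2, -, h2⟩ := Finset.exists_mem_notMem_of_card_lt_card h1
    simp only [Finset.mem_insert, Finset.mem_singleton, not_or] at h2
    exact ⟨i2, h2⟩
  let pr : Fin (n + 2) → Module.Dual Ω (Fin (n + 2) → Ω) := fun i => LinearMap.proj i
  let f : Option S → Module.Dual Ω (Fin (n + 2) → Ω) := fun o =>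
    o.elim (b i1 • pr i2 - b i2 • pr i1) fun P =>
      ∑ l, MvPolynomial.aeval (P : Fin (n + 2) → Ω) (MvPolynomial.pderiv l F) • pr l
  obtain ⟨w, hw, hfw⟩ := Module.Dual.exists_forall_mem_ne_zero_of_forall_exists
    (LinearMap.ker (pr j0)) f (by
      intro o
      cases o with
      | none =>
        refine ⟨Pi.single i2 1, ?_, ?_⟩
        · rw [LinearMap.mem_ker]
          change (Pi.single i2 1 : Fin (n + 2) → Ω) j0 = 0
          rw [Pi.single_eq_of_ne hi2.2.symm]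
        · change b i1 * (Pi.single i2 1 : Fin (n + 2) → Ω) i2 -
            b i2 * (Pi.single i2 1 : Fin (n + 2) → Ω) i1 ≠ 0
          rw [Pi.single_eq_same, Pi.single_eq_of_ne hi2.1.symm, mul_one, mul_zero, sub_zero]
          exact hi1
      | some P =>
        obtain ⟨hP1, hP2⟩ := hS P.1 P.2
        obtain ⟨c, hc⟩ := Pool.Agent.Y184.NT.exists_c hs (x := (P : Fin (n + 2) → Ω)) (j0 := j0)
          (by rw [hP1]; exact one_ne_zero)
        have he := euler_aeval hF hP2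
        refine ⟨fun j => c j - c j0 * (P : Fin (n + 2) → Ω) j, ?_, ?_⟩
        · rw [LinearMap.mem_ker]
          change c j0 - c j0 * (P : Fin (n + 2) → Ω) j0 = 0
          rw [hP1, mul_one, sub_self]
        · have h1 : f (some P) (fun j => c j - c j0 * (P : Fin (n + 2) → Ω) j) =
              ∑ l, MvPolynomial.aeval (P : Fin (n + 2) → Ω) (MvPolynomial.pderiv l F) *
                (c l - c j0 * (P : Fin (n + 2) → Ω) l) := by
            change (∑ l, MvPolynomial.aeval (P : Fin (n + 2) → Ω) (MvPolynomial.pderiv l F) •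
              pr l) _ = _
            rw [LinearMap.sum_apply]
            rfl
          rw [h1]
          have h2 : ∑ l, MvPolynomial.aeval (P : Fin (n + 2) → Ω) (MvPolynomial.pderiv l F) *
                (c l - c j0 * (P : Fin (n + 2) → Ω) l) = 1 := by
            rw [← hc, ← sub_eq_zero, ← Finset.sum_sub_distrib, ← mul_zero (-c j0), ← he,
              Finset.mul_sum]
            refine Finset.sum_congr rfl fun l _ => ?_
            ring
          rw [h2]
          exact one_ne_zero)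
  refine ⟨w, LinearMap.mem_ker.1 hw, ⟨i1, i2, ?_⟩, fun P hP => ?_⟩
  · exact hfw none
  · have h1 := hfw (some ⟨P, hP⟩)
    have h2 : f (some ⟨P, hP⟩) w = ∑ l, MvPolynomial.aeval P (MvPolynomial.pderiv l F) * w l := by
      change (∑ l, MvPolynomial.aeval P (MvPolynomial.pderiv l F) • pr l) _ = _
      rw [LinearMap.sum_apply]
      rfl
    rw [h2] at h1
    exact h1

/-- an irreducible factor through a point -/
theorem exists_factor {G : Polynomial (Polynomial Ω)} (hG : G ≠ 0) {τ : Ω} (h : val τ G = 0) :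
    ∃ p, Irreducible p ∧ p ∣ G ∧ val τ p = 0 := by
  obtain ⟨f, hf, u, hu⟩ := WfDvdMonoid.exists_factors G hG
  have h1 : ev (RingHom.id Ω) τ 0 f.prod = 0 := by
    have h2 : ev (RingHom.id Ω) τ 0 G = 0 := by rw [← val_eq_ev, h]
    rw [← hu, map_mul] at h2
    refine (mul_eq_zero.1 h2).resolve_right ?_
    exact (u.isUnit.map (ev (RingHom.id Ω) τ 0)).ne_zero
  rw [map_multiset_prod, Multiset.prod_eq_zero_iff, Multiset.mem_map] at h1
  obtain ⟨p, hp, hp0⟩ := h1
  refine ⟨p, hf p hp, ?_, by rw [val_eq_ev, hp0]⟩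
  rw [← hu]
  exact dvd_mul_of_dvd_left (Multiset.dvd_prod hp) _

/-- **Line sections.** -/
theorem section_mem [IsAlgClosed Ω] (hn : 1 ≤ n) {F : MvPolynomial (Fin (n + 2)) ℂ} (hs : Sm F)
    (hF : F.IsHomogeneous d) {x : Fin (n + 2) → K} (hx : MvPolynomial.aeval x F = 0)
    {j0 : Fin (n + 2)} (hj0 : x j0 = 1) (hgen : IntermediateField.adjoin ℂ (Set.range x) = ⊤)
    (hK : Algebra.trdeg ℂ K = (n : ℕ)) {a b : Fin (n + 2) → Ω} (ha : a j0 = 1) (hb : b j0 = 0)
    (hb0 : b ≠ 0) (hR : restr F a b ≠ 0) {f : (K →ₐ[ℂ] Ω) →₀ ℤ} {m0 : ℤ}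
    (hf : ∀ (σ : K →ₐ[ℂ] Ω) (τ : Ω), (∀ j, σ (x j) = a j + τ * b j) →
      f σ = m0 * (restr F a b).rootMultiplicity τ)
    (hf' : ∀ σ : K →ₐ[ℂ] Ω, f σ ≠ 0 → ∃ τ : Ω, ∀ j, σ (x j) = a j + τ * b j) : f ∈ Rat K Ω := by
  classical
  have hcΩ : CharZero Ω := charZero_of_injective_algebraMap (algebraMap ℂ Ω).injective
  by_cases hm0 : m0 = 0
  · have h0 : f = 0 := by
      ext σ
      by_contra hne
      obtain ⟨τ, hτ⟩ := hf' σ hne
      apply hne
      rw [hf σ τ hτ, hm0, zero_mul]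
      rfl
    rw [h0]
    exact zero_mem _
  choose! t ht using hf'
  obtain ⟨S, hS⟩ : ∃ S, S = f.support := ⟨_, rfl⟩
  have htS : ∀ σ ∈ S, ∀ j, σ (x j) = a j + t σ * b j := by
    intro σ hσ
    rw [hS, Finsupp.mem_support_iff] at hσ
    exact ht σ hσ
  obtain ⟨i0, hi0⟩ : ∃ i, b i ≠ 0 := by
    by_contra h
    push Not at h
    exact hb0 (funext h)
  have hroot : ∀ (σ : K →ₐ[ℂ] Ω) (τ : Ω), (∀ j, σ (x j) = a j + τ * b j) →
      MvPolynomial.aeval (fun j => a j + τ * b j) F = 0 := by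
    intro σ τ h
    have h1 : (fun j => a j + τ * b j) = fun j => σ (x j) := by
      funext j
      rw [h]
    rw [h1, ← MvPolynomial.comp_aeval_apply (φ := σ) x F, hx, map_zero]
  have hSmem : ∀ (σ : K →ₐ[ℂ] Ω) (τ : Ω), (∀ j, σ (x j) = a j + τ * b j) → σ ∈ S ∧ t σ = τ := by
    intro σ τ h
    have h1 : f σ ≠ 0 := by
      rw [hf σ τ h]
      refine mul_ne_zero hm0 ?_
      have h2 : 0 < (restr F a b).rootMultiplicity τ := by
        rw [rootMultiplicity_pos hR, IsRoot, restr_eval]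
        exact hroot σ τ h
      exact_mod_cast h2.ne'
    refine ⟨by rw [hS]; exact Finsupp.mem_support_iff.2 h1, ?_⟩
    have h2 := ht σ h1 i0
    rw [h i0] at h2
    apply mul_right_cancel₀ hi0
    linear_combination -h2
  obtain ⟨w, hw, ⟨i1, i2, hbw⟩, hwS⟩ := exists_plane hn hs hF hb hb0
    (S.image fun σ j => σ (x j)) (by
      intro P hP
      obtain ⟨σ, hσ, rfl⟩ := Finset.mem_image.1 hP
      refine ⟨by change σ (x j0) = 1; rw [hj0, map_one], ?_⟩
      rw [← MvPolynomial.comp_aeval_apply (φ := σ) x F, hx, map_zero])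
  obtain ⟨G, hG⟩ : ∃ G, G = sect F a b w := ⟨_, rfl⟩
  have hG0 : G ≠ 0 := by
    intro h
    apply hR
    rw [← sect_coeff_zero F a b w, ← hG, h, coeff_zero]
  have hG1 : ∀ (σ : K →ₐ[ℂ] Ω) (τ : Ω), (∀ j, σ (x j) = a j + τ * b j) →
      ((sect F a b w).coeff 1).eval τ ≠ 0 := by
    intro σ τ h
    rw [sect_coeff_one]
    have h1 : (fun j => a j + τ * b j) = fun j => σ (x j) := by
      funext j
      rw [h]
    rw [h1]
    exact hwS _ (Finset.mem_image_of_mem _ (hSmem σ τ h).1)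
  have hfac : ∀ σ : K →ₐ[ℂ] Ω, ∃ p : Polynomial (Polynomial Ω), σ ∈ S →
      Irreducible p ∧ p ∣ G ∧ val (t σ) p = 0 := by
    intro σ
    by_cases hσ : σ ∈ S
    · obtain ⟨p, hp⟩ := exists_factor hG0 (τ := t σ) (by
        rw [hG, val_sect]
        exact hroot σ (t σ) (htS σ hσ))
      exact ⟨p, fun _ => hp⟩
    · exact ⟨0, fun h => absurd h hσ⟩
  choose p hp using hfac
  -- two factors through one point
  have hassoc : ∀ σ ∈ S, ∀ σ' ∈ S, val (t σ') (p σ) = 0 → Associated (p σ) (p σ') := by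
    intro σ hσ σ' hσ' h
    obtain ⟨h1, ⟨q, hq⟩, -⟩ := hp σ hσ
    obtain ⟨h1', h2', h3'⟩ := hp σ' hσ'
    have h4 := hG1 σ' (t σ') (htS σ' hσ')
    rw [← hG, hq, mul_coeff_one, eval_add, eval_mul, eval_mul] at h4
    have h5 : eval (t σ') ((p σ).coeff 0) = 0 := h
    rw [h5, zero_mul, zero_add] at h4
    have h6 : val (t σ') q ≠ 0 := right_ne_zero_of_mul h4
    have h7 : p σ' ∣ p σ := by
      rw [hq] at h2'
      refine (h1'.prime.dvd_or_dvd h2').resolve_right ?_
      rintro ⟨r, hr⟩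
      apply h6
      rw [hr, val_mul, h3', zero_mul]
    exact (h1'.associated_of_dvd h1 h7).symm
  have hval : ∀ {P Q : Polynomial (Polynomial Ω)}, Associated P Q → ∀ τ, val τ P = 0 →
      val τ Q = 0 := by
    rintro P Q ⟨u, hu⟩ τ h
    rw [← hu, val_mul, h, zero_mul]
  obtain ⟨cl, hcl⟩ : ∃ cl : (K →ₐ[ℂ] Ω) → Finset (K →ₐ[ℂ] Ω),
      cl = fun σ => S.filter fun σ' => val (t σ') (p σ) = 0 := ⟨_, rfl⟩
  have hclm : ∀ σ σ', σ' ∈ cl σ ↔ σ' ∈ S ∧ val (t σ') (p σ) = 0 := by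
    intro σ σ'
    rw [hcl, Finset.mem_filter]
  have hcls : ∀ σ ∈ S, ∀ σ' ∈ S, cl σ' = cl σ ↔ val (t σ') (p σ) = 0 := by
    intro σ hσ σ' hσ'
    constructor
    · intro h
      have h1 : σ' ∈ cl σ' := (hclm _ _).2 ⟨hσ', (hp σ' hσ').2.2⟩
      rw [h] at h1
      exact ((hclm _ _).1 h1).2
    · intro h
      have h1 := hassoc σ hσ σ' hσ' h
      ext ρ
      rw [hclm, hclm]
      constructor
      · rintro ⟨h2, h3⟩
        exact ⟨h2, hval h1.symm _ h3⟩
      · rintro ⟨h2, h3⟩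
        exact ⟨h2, hval h1 _ h3⟩
  -- the parts
  obtain ⟨g, hg⟩ : ∃ g : Finset (K →ₐ[ℂ] Ω) → ((K →ₐ[ℂ] Ω) →₀ ℤ), ∀ C σ, g C σ =
      if σ ∈ S ∧ cl σ = C then ((restr F a b).rootMultiplicity (t σ) : ℤ) else 0 := by
    refine ⟨fun C => Finsupp.onFinset S (fun σ =>
      if σ ∈ S ∧ cl σ = C then ((restr F a b).rootMultiplicity (t σ) : ℤ) else 0)
      fun σ hσ => ?_, fun C σ => rfl⟩
    by_contra hne
    apply hσ
    rw [if_neg]
    rintro ⟨h, -⟩
    exact hne h
  have hsum : f = ∑ C ∈ S.image cl, m0 • g C := by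
    ext σ
    rw [Finset.sum_apply']
    simp only [Finsupp.smul_apply, hg, smul_eq_mul]
    by_cases hσ : σ ∈ S
    · rw [Finset.sum_eq_single (cl σ)]
      · rw [if_pos ⟨hσ, rfl⟩]
        exact hf σ (t σ) (htS σ hσ)
      · intro C _ hC
        rw [if_neg, mul_zero]
        rintro ⟨-, h⟩
        exact hC h.symm
      · intro h
        exact absurd (Finset.mem_image_of_mem _ hσ) h
    · rw [Finset.sum_eq_zero]
      · rw [hS] at hσ
        exact Finsupp.notMem_support_iff.1 hσ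
      · intro C _
        rw [if_neg, mul_zero]
        rintro ⟨h, -⟩
        exact hσ h
  rw [hsum]
  refine sum_mem fun C hC => zsmul_mem ?_ _
  obtain ⟨σ0, hσ0, rfl⟩ := Finset.mem_image.1 hC
  obtain ⟨h1, ⟨q, hq⟩, h3⟩ := hp σ0 hσ0
  refine component hs hF hx hj0 hgen hK ha hb hw hbw hR h1 (q := q) (by rw [← hG, hq]) hG1
    (htS σ0 hσ0) h3 (fun σ τ hτ hv => ?_) fun σ hσ => ?_
  · obtain ⟨h4, h5⟩ := hSmem σ τ hτ
    rw [hg, if_pos ⟨h4, (hcls σ0 hσ0 σ h4).2 (by rw [h5]; exact hv)⟩, h5]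
  · rw [hg] at hσ
    split_ifs at hσ with h4
    · exact ⟨t σ, htS σ h4.1, (hcls σ0 hσ0 σ h4.1).1 h4.2⟩
    · exact absurd rfl hσ

end

end Pool.Agent.N162.HS
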