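import Pool.Agent.N162.BC.Model
import Pool.Agent.Helper386.D5V.Helper740_D5_ModelPoly
import Pool.Agent.H427R3.ZT.Riem
import Pool.Agent.H602R2.LocV9

/-!
The place of a plane curve at a smooth point on the line `Y = 0`.
-/

set_option autoImplicit false
set_option linter.overlappingInstances false
set_option linter.unusedSectionVars false

open FF Polynomial Pool.Agent.W603.LV Pool.Agent.Helper740.RegExt Pool.Agent.N162.BC
open scoped Polynomial.Bivariate

namespace Pool.Agent.N162.HS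

section

variable {k M : Type} [Field k] [Field M] [Algebra k M]

/-- the value at the point `(τ, 0)` -/
noncomputable def val (τ : k) (H : k[X][Y]) : k := (H.coeff 0).eval τ

theorem val_eq_ev (τ : k) (H : k[X][Y]) : val τ H = ev (RingHom.id k) τ 0 H := by
  unfold val ev
  rw [coe_eval₂RingHom, eval₂_at_zero]
  rfl

theorem val_mul (τ : k) (G H : k[X][Y]) : val τ (G * H) = val τ G * val τ H := by
  rw [val_eq_ev, val_eq_ev, val_eq_ev, map_mul]

/-- the expansion at the point `(τ, 0)` -/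
theorem expand (τ : k) (H : k[X][Y]) :
    ∃ S : k[X][Y], H = C (C (val τ H)) + C (X - C τ) * S + X * divX H := by
  have h1 : X - C τ ∣ H.coeff 0 - C (val τ H) := by
    rw [dvd_iff_isRoot, IsRoot, eval_sub, eval_C, val, sub_self]
  obtain ⟨q, hq⟩ := h1
  refine ⟨C q, ?_⟩
  rw [← C_mul, ← hq, ← C_add, add_sub_cancel]
  conv_lhs => rw [← X_mul_divX_add H]
  ring

/-- the coordinate ring -/
noncomputable def coord (ξ η : M) : Subalgebra k M :=
  { (ev (algebraMap k M) ξ η).range with
    algebraMap_mem' := fun r => ⟨C (C r), by simp [ev]⟩ }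

theorem mem_coord {ξ η b : M} : b ∈ coord (k := k) ξ η ↔
    ∃ H, ev (algebraMap k M) ξ η H = b := Iff.rfl

variable {ξ η : M} {τ : k}

theorem ev_mem_O (P : Place k M) (h1 : Ge P 1 (ξ - algebraMap k M τ)) (h2 : Ge P 1 η)
    (H : k[X][Y]) : Ge P 0 (ev (algebraMap k M) ξ η H) := by
  have hξ : ξ ∈ P.O := by
    have h3 : ξ = (ξ - algebraMap k M τ) + algebraMap k M τ := by ring
    rw [h3]
    refine P.O.add_mem _ _ ?_ (P.reg_const τ)
    rcases h1 with h | h
    · exact Or.inl h
    · exact Or.inr (by omega)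
  have hη : η ∈ P.O := by
    rcases h2 with h | h
    · exact Or.inl h
    · exact Or.inr (by omega)
  have h : ∀ p : k[X], p.eval₂ (algebraMap k M) ξ ∈ P.O := by
    intro p
    induction p using Polynomial.induction_on' with
    | add p q hp hq => rw [eval₂_add]; exact P.O.add_mem _ _ hp hq
    | monomial n a => rw [eval₂_monomial]; exact P.O.mul_mem _ _ (P.reg_const a) (pow_mem hξ n)
  induction H using Polynomial.induction_on' with
  | add p q hp hq => rw [map_add]; exact P.O.add_mem _ _ hp hq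
  | monomial n a =>
    have h3 : ev (algebraMap k M) ξ η (monomial n a) = a.eval₂ (algebraMap k M) ξ * η ^ n := by
      simp [ev]
    rw [h3]
    exact P.O.mul_mem _ _ (h a) (pow_mem hη n)

theorem ev_sub_val (P : Place k M) (h1 : Ge P 1 (ξ - algebraMap k M τ)) (h2 : Ge P 1 η)
    (H : k[X][Y]) : Ge P 1 (ev (algebraMap k M) ξ η H - algebraMap k M (val τ H)) := by
  obtain ⟨S, hS⟩ := expand τ H
  have h3 : ev (algebraMap k M) ξ η H - algebraMap k M (val τ H) =
      (ξ - algebraMap k M τ) * ev (algebraMap k M) ξ η S +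
        η * ev (algebraMap k M) ξ η (divX H) := by
    have h4 := congrArg (ev (algebraMap k M) ξ η) hS
    simp only [map_add, map_mul, map_sub] at h4
    have e1 : ev (algebraMap k M) ξ η (C (X : k[X])) = ξ := by simp [ev]
    have e2 : ev (algebraMap k M) ξ η (X : k[X][Y]) = η := by simp [ev]
    have e3 : ∀ a : k, ev (algebraMap k M) ξ η (C (C a)) = algebraMap k M a := fun a => by
      simp [ev]
    rw [e1, e2, e3, e3] at h4
    linear_combination h4
  rw [h3]
  have h4 := h1.mul (ev_mem_O P h1 h2 S)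
  have h5 := h2.mul (ev_mem_O P h1 h2 (divX H))
  rw [add_zero] at h4 h5
  exact h4.add h5

theorem ev_unit (P : Place k M) (h1 : Ge P 1 (ξ - algebraMap k M τ)) (h2 : Ge P 1 η)
    {H : k[X][Y]} (h : val τ H ≠ 0) : ev (algebraMap k M) ξ η H ≠ 0 ∧
      P.ord (ev (algebraMap k M) ξ η H) = 0 := by
  have h3 := ev_sub_val P h1 h2 H
  obtain ⟨u, hu⟩ : ∃ u, u = ev (algebraMap k M) ξ η H - algebraMap k M (val τ H) := ⟨_, rfl⟩
  have h4 : ev (algebraMap k M) ξ η H = algebraMap k M (val τ H) + u := by rw [hu]; ring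
  rw [← hu] at h3
  by_cases hu0 : u = 0
  · rw [h4, hu0, add_zero]
    exact ⟨by simpa using h, P.ord_const h⟩
  · have h5 := h3.resolve_left hu0
    have h6 := P.ord_add_eq (f := algebraMap k M (val τ H)) (by simpa using h) hu0
      (by rw [P.ord_const h]; omega)
    rw [h4]
    rw [P.ord_const h] at h6
    exact h6

theorem val_of_ord (P : Place k M) (h1 : Ge P 1 (ξ - algebraMap k M τ)) (h2 : Ge P 1 η)
    {H : k[X][Y]} (h : ev (algebraMap k M) ξ η H ≠ 0)
    (h0 : P.ord (ev (algebraMap k M) ξ η H) = 0) : val τ H ≠ 0 := by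
  intro hv
  have h3 := ev_sub_val P h1 h2 H
  rw [hv, map_zero, sub_zero] at h3
  rcases h3 with h4 | h4
  · exact h h4
  · omega

section place

variable {p : k[X][Y]} (hp : ev (algebraMap k M) ξ η p = 0) (hp0 : val τ p = 0)
  (hp1 : (p.coeff 1).eval τ ≠ 0) (hξ : Transcendental k ξ)
  (hgen : Gen (algebraMap k M) ξ η)

include hp hp0 hp1 in
theorem coord_div (P : Place k M) (h1 : Ge P 1 (ξ - algebraMap k M τ)) (h2 : Ge P 1 η) :
    ∀ b ∈ coord (k := k) ξ η, Ge P 1 b → ∃ s ∈ coord (k := k) ξ η, ∃ s' ∈ coord (k := k) ξ η,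
      s' ≠ 0 ∧ P.ord s' = 0 ∧ b * s' = (ξ - algebraMap k M τ) * s := by
  rintro _ ⟨H, rfl⟩ hH
  obtain ⟨S, hS⟩ := expand τ H
  obtain ⟨q, hq⟩ := expand τ p
  have hv : val τ H = 0 := by
    by_contra hne
    have h3 := ev_unit P h1 h2 hne
    rcases hH with h4 | h4
    · exact h3.1 h4
    · omega
  have hval1 : val τ (divX p) ≠ 0 := by
    unfold val
    rw [coeff_divX]
    exact hp1
  have h3 := ev_unit P h1 h2 hval1
  refine ⟨ev (algebraMap k M) ξ η (S * divX p - q * divX H), ⟨_, rfl⟩,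
    ev (algebraMap k M) ξ η (divX p), ⟨_, rfl⟩, h3.1, h3.2, ?_⟩
  have h4 := congrArg (ev (algebraMap k M) ξ η) hq
  have h5 := congrArg (ev (algebraMap k M) ξ η) hS
  rw [hp0] at h4
  rw [hv] at h5
  simp only [map_add, map_mul, map_sub, hp] at h4 h5 ⊢
  have e1 : ev (algebraMap k M) ξ η (C (X : k[X])) = ξ := by simp [ev]
  have e2 : ev (algebraMap k M) ξ η (X : k[X][Y]) = η := by simp [ev]
  have e3 : ∀ a : k, ev (algebraMap k M) ξ η (C (C a)) = algebraMap k M a := fun a => by simp [ev]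
  rw [e1, e2, e3, e3, map_zero] at h4 h5
  change ev (algebraMap k M) ξ η H * _ = _
  linear_combination (ev (algebraMap k M) ξ η (divX p)) * h5 -
    (ev (algebraMap k M) ξ η (divX H)) * h4

include hgen in
theorem coord_frac : ∀ f : M, ∃ a ∈ coord (k := k) ξ η, ∃ b ∈ coord (k := k) ξ η,
    b ≠ 0 ∧ f * b = a := by
  intro f
  obtain ⟨A, B, hB, rfl⟩ := hgen f
  exact ⟨_, ⟨A, rfl⟩, _, ⟨B, rfl⟩, hB, div_mul_cancel₀ _ hB⟩

include hp hp0 hp1 hξ hgen

theorem ord_xi (P : Place k M) (h1 : Ge P 1 (ξ - algebraMap k M τ)) (h2 : Ge P 1 η) :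
    P.ord (ξ - algebraMap k M τ) = 1 := by
  have hne : ξ - algebraMap k M τ ≠ 0 := by
    intro h
    exact hξ (by rw [sub_eq_zero.1 h]; exact isAlgebraic_algebraMap τ)
  have h3 := h1.resolve_left hne
  refine loc_unif P (coord (k := k) ξ η) (fun b hb => ?_) ?_ (by omega)
    (coord_div hp hp0 hp1 P h1 h2) (coord_frac hgen)
  · obtain ⟨H, rfl⟩ := hb
    exact ev_mem_O P h1 h2 H
  · refine ⟨C (X - C τ), ?_⟩
    simp [ev]

theorem place_unique (P Q : Place k M) (h1 : Ge P 1 (ξ - algebraMap k M τ)) (h2 : Ge P 1 η)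
    (h1' : Ge Q 1 (ξ - algebraMap k M τ)) (h2' : Ge Q 1 η) : P = Q := by
  have hne : ξ - algebraMap k M τ ≠ 0 := by
    intro h
    exact hξ (by rw [sub_eq_zero.1 h]; exact isAlgebraic_algebraMap τ)
  have h3 := h1.resolve_left hne
  refine Place.eq_of_le P Q fun f hf0 hf => ?_
  obtain ⟨s, hs, s', hs', hs'0, hs'1, hfs⟩ := loc_frac P (coord (k := k) ξ η) (fun b hb => by
      obtain ⟨H, rfl⟩ := hb
      exact ev_mem_O P h1 h2 H) ⟨C (X - C τ), by simp [ev]⟩ (by omega)
    (coord_div hp hp0 hp1 P h1 h2) (coord_frac hgen) (f := f) (Or.inr hf)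
  obtain ⟨H', rfl⟩ := hs'
  obtain ⟨H, rfl⟩ := hs
  have h4 := ev_unit Q h1' h2' (val_of_ord P h1 h2 hs'0 hs'1)
  have h5 := ev_mem_O Q h1' h2' H
  have h6 : f * ev (algebraMap k M) ξ η H' = ev (algebraMap k M) ξ η H := hfs
  have h7 : ev (algebraMap k M) ξ η H ≠ 0 := by
    rw [← h6]
    exact mul_ne_zero hf0 h4.1
  have h8 := congrArg Q.ord h6
  rw [Q.ord_mul hf0 h4.1, h4.2, add_zero] at h8
  rw [h8]
  exact h5.resolve_left h7

theorem ord_eta (P : Place k M) (h1 : Ge P 1 (ξ - algebraMap k M τ)) (h2 : Ge P 1 η)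
    (hc : p.coeff 0 ≠ 0) : P.ord η = (p.coeff 0).rootMultiplicity τ := by
  have hu := ord_xi hp hp0 hp1 hξ hgen P h1 h2
  have hne : ξ - algebraMap k M τ ≠ 0 := by
    intro h
    rw [h, P.ord_zero] at hu
    exact zero_ne_one hu
  obtain ⟨r, hr, hrd⟩ := exists_eq_pow_rootMultiplicity_mul_and_not_dvd (p.coeff 0) hc τ
  have hval1 : val τ (divX p) ≠ 0 := by
    unfold val
    rw [coeff_divX]
    exact hp1
  have h3 := ev_unit P h1 h2 hval1
  have hvr : val τ (C r) ≠ 0 := by
    unfold val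
    rw [coeff_C_zero]
    intro h
    exact hrd (dvd_iff_isRoot.2 h)
  have h4 := ev_unit P h1 h2 hvr
  have h5 := congrArg (ev (algebraMap k M) ξ η) (X_mul_divX_add p)
  rw [map_add, map_mul, hp] at h5
  have e2 : ev (algebraMap k M) ξ η (X : k[X][Y]) = η := by simp [ev]
  have e3 : ev (algebraMap k M) ξ η (C (p.coeff 0)) =
      (ξ - algebraMap k M τ) ^ (p.coeff 0).rootMultiplicity τ * ev (algebraMap k M) ξ η (C r) := by
    conv_lhs => rw [hr]
    rw [C_mul, C_pow, map_mul, map_pow]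
    congr 2
    simp [ev]
  rw [e2, e3] at h5
  have h6 : η * ev (algebraMap k M) ξ η (divX p) =
      -((ξ - algebraMap k M τ) ^ (p.coeff 0).rootMultiplicity τ *
        ev (algebraMap k M) ξ η (C r)) := by linear_combination h5
  have hprod : (ξ - algebraMap k M τ) ^ (p.coeff 0).rootMultiplicity τ *
      ev (algebraMap k M) ξ η (C r) ≠ 0 := mul_ne_zero (pow_ne_zero _ hne) h4.1
  have hη : η ≠ 0 := by
    intro h0
    exact hprod (neg_eq_zero.1 (h6.symm.trans (mul_eq_zero_of_left h0 _)))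
  have h7 := congrArg P.ord h6
  rw [P.ord_mul hη h3.1, h3.2, P.ord_neg, P.ord_mul (pow_ne_zero _ hne) h4.1, h4.2, P.ord_pow, hu]
    at h7
  simpa using h7

end place

/-- a place with a given centre -/
theorem exists_place_at [CharZero k] [IsFF k M] {p : k[X][Y]} (hp0 : val τ p = 0)
    (hker : ∀ H, ev (algebraMap k M) ξ η H = 0 → p ∣ H) (hξ : Transcendental k ξ) :
    ∃ P : Place k M, Ge P 1 (ξ - algebraMap k M τ) ∧ Ge P 1 η := by
  classical
  let A := (ev (algebraMap k M) ξ η).range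
  let e0 : A →+* k :=
    (ev (algebraMap k M) ξ η).rangeRestrict.liftOfSurjective
      (ev (algebraMap k M) ξ η).rangeRestrict_surjective
      ⟨ev (RingHom.id k) τ 0, by
        intro x hx
        rw [RingHom.mem_ker] at hx ⊢
        obtain ⟨q, rfl⟩ := hker x (congrArg Subtype.val hx)
        rw [map_mul, ← val_eq_ev, hp0, zero_mul]⟩
  have he0 : ∀ H, e0 ((ev (algebraMap k M) ξ η).rangeRestrict H) = ev (RingHom.id k) τ 0 H := by
    intro H
    exact RingHom.liftOfRightInverse_comp_apply _ _ _ _ _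
  have hinj : Function.Injective (algebraMap A M) := Subtype.val_injective
  obtain ⟨O, hO1, hO2⟩ := Pool.Agent.H626R2.Loc.exists_place hinj (RingHom.ker e0)
    (RingHom.ker_isPrime e0)
  have hne : ξ - algebraMap k M τ ≠ 0 := by
    intro h
    exact hξ (by rw [sub_eq_zero.1 h]; exact isAlgebraic_algebraMap τ)
  have hval : ∀ H, val τ H = 0 → O.valuation (ev (algebraMap k M) ξ η H) < 1 := by
    intro H hH
    have h1 := (hO2 ((ev (algebraMap k M) ξ η).rangeRestrict H)).2 (by
      rw [RingHom.mem_ker, he0, ← val_eq_ev]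
      exact hH)
    exact h1
  have h1 : O.valuation (ξ - algebraMap k M τ) < 1 := by
    have h2 := hval (C (X - C τ)) (by
      unfold val
      rw [coeff_C_zero, eval_sub, eval_X, eval_C, sub_self])
    have h3 : ev (algebraMap k M) ξ η (C (X - C τ)) = ξ - algebraMap k M τ := by simp [ev]
    rwa [h3] at h2
  have h2 : O.valuation η < 1 := by
    have h2 := hval X (by
      unfold val
      rw [coeff_X_zero, eval_zero])
    have h3 : ev (algebraMap k M) ξ η (X : k[X][Y]) = η := by simp [ev]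
    rwa [h3] at h2
  have hinv : ∀ f : M, f ≠ 0 → O.valuation f < 1 → f⁻¹ ∉ O := by
    intro f hf h hmem
    have h3 := (O.valuation_le_one_iff _).2 hmem
    have h4 : O.valuation f * O.valuation f⁻¹ = 1 := by
      rw [← map_mul, mul_inv_cancel₀ hf, map_one]
    have h5 : O.valuation f * O.valuation f⁻¹ < 1 :=
      lt_of_le_of_lt (mul_le_of_le_one_right' h3) h
    rw [h4] at h5
    exact lt_irrefl _ h5
  have hk : ∀ a : k, algebraMap k M a ∈ O := by
    intro a
    have h3 := hO1 ⟨algebraMap k M a, C (C a), by simp [ev]⟩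
    exact h3
  have htop : O ≠ ⊤ := by
    intro h
    apply hinv _ hne h1
    rw [h]
    trivial
  obtain ⟨v, hv⟩ := Pool.Agent.H427R3.ZT.exists_place_O (k := k) (F := M) O hk htop
  have hge : ∀ f : M, O.valuation f < 1 → Ge v 1 f := by
    intro f hf
    by_cases h0 : f = 0
    · exact Or.inl h0
    right
    have h3 : f ∈ v.O := by
      rw [hv]
      exact (O.valuation_le_one_iff _).1 hf.le
    have h4 : f⁻¹ ∉ v.O := by
      rw [hv]
      exact hinv f h0 hf
    have h5 : 0 ≤ v.ord f := h3.resolve_left h0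
    by_contra hcon
    apply h4
    right
    rw [v.ord_inv]
    omega
  exact ⟨v, hge _ h1, hge _ h2⟩

end

end Pool.Agent.N162.HS
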